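import Pool.Agent.Work.MP_2738db_nt_Y.Interface4
import Pool.Agent.Work.MP_2738db_nt_Y_helper23.ABMP

/-!
Block CBR: the `r`-part of `x ^ p` in `y ^ q - (± z ^ p) ^ q = ± x ^ p`, `q` odd.
-/

set_option autoImplicit false

namespace Pool.Agent.Work.MP_2738db_nt_Y.helper17

open Finset

/-! ### Divisibility -/

theorem cbr_lte {r q V : ℕ} {X Y : ℤ} (hr : r.Prime) (hq : q.Prime) (hq3 : 3 ≤ q)
    (hX : ¬ (r : ℤ) ∣ X) (hxy : (r : ℤ) ∣ X - Y) (h : (r : ℤ) ^ V ∣ X ^ q - Y ^ q) :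
    (r : ℤ) ^ V ∣ q * (X - Y) := by
  have : Fact r.Prime := ⟨hr⟩
  have hrZ : Prime (r : ℤ) := Nat.prime_iff_prime_int.mp hr
  have hgeo := geom_sum₂_mul X Y q
  by_cases hrp : r = q
  · subst hrp
    have h1 := emultiplicity_geom_sum₂_eq_one hrZ (hr.odd_of_ne_two (by omega)) hxy hX
    have h1' : emultiplicity (r : ℤ) (∑ i ∈ range r, X ^ i * Y ^ (r - 1 - i)) = ((1 : ℕ) : ℕ∞) := by
      rw [h1]; rfl
    obtain ⟨h2, h3⟩ := emultiplicity_eq_coe.mp h1'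
    rw [pow_one] at h2
    obtain ⟨t, ht⟩ := h2
    have h4 : ¬ (r : ℤ) ∣ t := by
      rintro ⟨t', ht'⟩
      apply h3
      refine ⟨t', ?_⟩
      rw [ht, ht']; ring
    have h5 : IsCoprime ((r : ℤ) ^ V) t :=
      IsCoprime.pow_left ((hrZ.irreducible.coprime_iff_not_dvd).mpr h4)
    rw [← hgeo, ht] at h
    have h6 : (r : ℤ) ^ V ∣ t * (r * (X - Y)) := by
      have : (r : ℤ) * t * (X - Y) = t * (r * (X - Y)) := by ring
      rwa [this] at h
    exact h5.dvd_of_dvd_mul_left h6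
  · have hn : ¬ (r : ℤ) ∣ (q : ℤ) := by
      intro h1
      have h2 : r ∣ q := by exact_mod_cast h1
      exact hrp ((Nat.prime_dvd_prime_iff_eq hr hq).mp h2)
    have h1 := not_dvd_geom_sum₂ hrZ hxy hX hn
    have h5 : IsCoprime ((r : ℤ) ^ V) (∑ i ∈ range q, X ^ i * Y ^ (q - 1 - i)) :=
      IsCoprime.pow_left ((hrZ.irreducible.coprime_iff_not_dvd).mpr h1)
    rw [← hgeo] at h
    exact Dvd.dvd.mul_left (h5.dvd_of_dvd_mul_left h) _

theorem cbr_order {r q : ℕ} {X Y : ℤ} (hr : r.Prime) (hq : q.Prime)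
    (hX : ¬ (r : ℤ) ∣ X) (hY : ¬ (r : ℤ) ∣ Y) (hxy : ¬ (r : ℤ) ∣ X - Y)
    (h1 : (r : ℤ) ∣ X ^ q - Y ^ q) : q < r := by
  have : Fact r.Prime := ⟨hr⟩
  have hx0 : (X : ZMod r) ≠ 0 := by
    rw [Ne, ZMod.intCast_zmod_eq_zero_iff_dvd]; exact hX
  have hy0 : (Y : ZMod r) ≠ 0 := by
    rw [Ne, ZMod.intCast_zmod_eq_zero_iff_dvd]; exact hY
  have h2 : (X : ZMod r) ^ q = (Y : ZMod r) ^ q := by
    have h3 : ((X ^ q - Y ^ q : ℤ) : ZMod r) = 0 := by
      rw [ZMod.intCast_zmod_eq_zero_iff_dvd]; exact h1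
    push_cast at h3
    exact sub_eq_zero.mp h3
  have h3 : (X : ZMod r) ≠ (Y : ZMod r) := by
    intro h4
    apply hxy
    rw [← ZMod.intCast_zmod_eq_zero_iff_dvd]
    push_cast
    rw [h4, sub_self]
  have h4 : ((X : ZMod r) / Y) ^ q = 1 := by
    rw [div_pow, h2, div_self (pow_ne_zero _ hy0)]
  have h5 : (X : ZMod r) / Y ≠ 1 := by
    intro h6
    rw [div_eq_one_iff_eq hy0] at h6
    exact h3 h6
  have : Fact q.Prime := ⟨hq⟩
  have h6 : orderOf ((X : ZMod r) / Y) = q := orderOf_eq_prime h4 h5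
  have h7 : orderOf ((X : ZMod r) / Y) ∣ r - 1 :=
    ZMod.orderOf_dvd_card_sub_one (div_ne_zero hx0 hy0)
  rw [h6] at h7
  have h8 := Nat.le_of_dvd (by have := hr.two_le; omega) h7
  have := hr.two_le
  omega

/-- `Phi ≡ q b ^ (q - 1)` modulo `a - b` -/
theorem cbr_phi_mod (q : ℕ) (a b : ℤ) :
    a - b ∣ (∑ i ∈ range q, a ^ i * b ^ (q - 1 - i)) - q * b ^ (q - 1) := by
  have h1 : (∑ i ∈ range q, a ^ i * b ^ (q - 1 - i)) - q * b ^ (q - 1) =
      ∑ i ∈ range q, (a ^ i - b ^ i) * b ^ (q - 1 - i) := by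
    have h2 : (q : ℤ) * b ^ (q - 1) = ∑ i ∈ range q, b ^ i * b ^ (q - 1 - i) := by
      have h3 : ∀ i ∈ range q, b ^ i * b ^ (q - 1 - i) = b ^ (q - 1) := by
        intro i hi
        rw [← pow_add]
        have h4 : i + (q - 1 - i) = q - 1 := by have := mem_range.1 hi; omega
        rw [h4]
      rw [sum_congr rfl h3, sum_const, card_range, nsmul_eq_mul]
    rw [h2, ← sum_sub_distrib]
    exact sum_congr rfl (fun i _ => by ring)
  rw [h1]
  exact dvd_sum (fun i _ => Dvd.dvd.mul_right (sub_dvd_pow_sub_pow a b i) _)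

/-- `Phi ≡ a ^ (q - 1)` modulo `b` -/
theorem cbr_phi_mod' (q : ℕ) (hq : 1 ≤ q) (a b : ℤ) :
    b ∣ (∑ i ∈ range q, a ^ i * b ^ (q - 1 - i)) - a ^ (q - 1) := by
  obtain ⟨n, rfl⟩ : ∃ n, q = n + 1 := ⟨q - 1, by omega⟩
  rw [sum_range_succ]
  have h1 : n + 1 - 1 - n = 0 := by omega
  have h2 : n + 1 - 1 = n := by omega
  rw [h1, pow_zero, mul_one, h2, add_sub_cancel_right]
  refine dvd_sum (fun i hi => Dvd.dvd.mul_left (dvd_pow_self _ ?_) _)
  have := mem_range.1 hi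
  omega

theorem cbr_phi_pos {q : ℕ} (hq : Odd q) {a b : ℤ} (hab : a ≠ b) :
    0 < ∑ i ∈ range q, a ^ i * b ^ (q - 1 - i) := by
  have hgeo := geom_sum₂_mul a b q
  rcases lt_or_gt_of_ne hab with h | h
  · have h1 := hq.strictMono_pow h
    by_contra hc
    rw [not_lt] at hc
    have h2 : (∑ i ∈ range q, a ^ i * b ^ (q - 1 - i)) * (a - b) ≥ 0 :=
      mul_nonneg_of_nonpos_of_nonpos hc (by linarith)
    simp only at h1
    linarith
  · have h1 := hq.strictMono_pow h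
    by_contra hc
    rw [not_lt] at hc
    have h2 : (∑ i ∈ range q, a ^ i * b ^ (q - 1 - i)) * (a - b) ≤ 0 :=
      mul_nonpos_of_nonpos_of_nonneg hc (by linarith)
    simp only at h1
    linarith

/-- the factors -/
theorem cbr_fac {p q x : ℕ} {a b δ : ℤ} (hp : 1 ≤ p) (hq : q.Prime) (hq3 : 3 ≤ q) (hx : 1 ≤ x)
    (hab : IsCoprime a b) (hδ : δ = 1 ∨ δ = -1) (h : a ^ q - b ^ q = δ * (x : ℤ) ^ p) :
    ∃ d F : ℕ, d = (a - b).natAbs ∧ (F : ℤ) = ∑ i ∈ range q, a ^ i * b ^ (q - 1 - i) ∧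
      1 ≤ d ∧ 1 ≤ F ∧ d * F = x ^ p ∧
      ((¬ q ∣ x ∧ ∃ U v : ℕ, d = U ^ p ∧ F = v ^ p ∧ x = U * v) ∨
        (∃ U v : ℕ, q ∣ U ∧ q * d = U ^ p ∧ F = q * v ^ p)) := by
  have hodd : Odd q := hq.odd_of_ne_two (by omega)
  have hxp : (1 : ℤ) ≤ (x : ℤ) ^ p := one_le_pow₀ (by exact_mod_cast hx)
  have hne : a ≠ b := by
    intro he
    rw [he, sub_self] at h
    rcases hδ with h1 | h1 <;> rw [h1] at h <;> linarith
  have hpos := cbr_phi_pos hodd hne
  obtain ⟨F, hF⟩ := Int.eq_ofNat_of_zero_le hpos.le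
  have hF1 : 1 ≤ F := by
    rw [hF] at hpos
    exact_mod_cast hpos
  have hd1 : 1 ≤ (a - b).natAbs := by
    have h1 : (a - b).natAbs ≠ 0 := by
      rw [Ne, Int.natAbs_eq_zero, sub_eq_zero]; exact hne
    omega
  have hgeo := geom_sum₂_mul a b q
  have hdF : (a - b).natAbs * F = x ^ p := by
    have h1 : ((a - b) * (F : ℤ)).natAbs = (a - b).natAbs * F := by
      rw [Int.natAbs_mul, Int.natAbs_natCast]
    rw [← h1]
    have h2 : (a - b) * (F : ℤ) = δ * (x : ℤ) ^ p := by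
      rw [← h, ← hgeo, hF, mul_comm]
    rw [h2, Int.natAbs_mul, Int.natAbs_pow, Int.natAbs_natCast]
    rcases hδ with h3 | h3 <;> rw [h3] <;> simp
  refine ⟨(a - b).natAbs, F, rfl, hF.symm, hd1, hF1, hdF, ?_⟩
  rcases lt_or_gt_of_ne hne with hlt | hlt
  · have hd : (((a - b).natAbs : ℕ) : ℤ) = b - a := by
      rw [Int.natCast_natAbs, abs_of_neg (by linarith)]; ring
    have hF' : (F : ℤ) = ∑ i ∈ range q, b ^ i * a ^ (q - 1 - i) := by
      rw [← geom_sum₂_comm a b q]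
      exact hF.symm
    exact helper23.key q hq hq3 b a hab.symm _ F x p hd hF' hp hdF
  · have hd : (((a - b).natAbs : ℕ) : ℤ) = a - b := by
      rw [Int.natCast_natAbs, abs_of_pos (by linarith)]
    exact helper23.key q hq hq3 a b hab _ F x p hd hF.symm hp hdF

/-! ### Sizes -/

theorem cbr_phi_le (q : ℕ) (a b : ℤ) (E : ℝ) (hE : 0 ≤ E) (ha : |(a : ℝ)| ≤ E)
    (hb : |(b : ℝ)| ≤ E) :
    ((∑ i ∈ range q, a ^ i * b ^ (q - 1 - i) : ℤ) : ℝ) ≤ q * E ^ (q - 1) := by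
  push_cast
  have h1 : ∀ i ∈ range q, (a : ℝ) ^ i * (b : ℝ) ^ (q - 1 - i) ≤ E ^ (q - 1) := by
    intro i hi
    refine (le_abs_self _).trans ?_
    rw [abs_mul, abs_pow, abs_pow]
    have h2 : E ^ (q - 1) = E ^ i * E ^ (q - 1 - i) := by
      rw [← pow_add]
      have h3 : i + (q - 1 - i) = q - 1 := by have := mem_range.1 hi; omega
      rw [h3]
    rw [h2]
    exact mul_le_mul (pow_le_pow_left₀ (abs_nonneg _) ha _) (pow_le_pow_left₀ (abs_nonneg _) hb _)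
      (by positivity) (by positivity)
  refine (Finset.sum_le_card_nsmul _ _ _ h1).trans ?_
  rw [card_range, nsmul_eq_mul]

theorem log3_ge_one' {P : ℕ} (hP : 3 ≤ P) : 1 ≤ Real.log P := by
  rw [← Real.log_exp 1]
  apply Real.log_le_log (Real.exp_pos _)
  have h1 := Real.exp_one_lt_d9
  have h2 : (3 : ℝ) ≤ P := by exact_mod_cast hP
  linarith

/-- the hypotheses, with `a = y`, `b = e z ^ p` -/
structure CbrData (p q r x y z : ℕ) (e δ : ℤ) (M : ℝ) : Prop where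
  hp : p.Prime
  hq : q.Prime
  hpq : p ≠ q
  hq3 : 3 ≤ q
  hx : 1 ≤ x
  hy : 1 ≤ y
  hz : 1 ≤ z
  hxz : Nat.Coprime x z
  hxy : Nat.Coprime x y
  hyz : Nat.Coprime y z
  hr : r.Prime
  hrx : r ∣ x
  he : e = 1 ∨ e = -1
  hδ : δ = 1 ∨ δ = -1
  heq : (y : ℤ) ^ q - (e * (z : ℤ) ^ p) ^ q = δ * (x : ℤ) ^ p
  hxM : p * Real.log x ≤ M
  hyM : q * Real.log y ≤ M
  hzM : p * q * Real.log z ≤ M
  hqM : q * Real.log 2 ≤ M

namespace CbrData

variable {p q r x y z : ℕ} {e δ : ℤ} {M : ℝ}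

theorem ry (h : CbrData p q r x y z e δ M) : ¬ (r : ℤ) ∣ (y : ℤ) := by
  intro h1
  have h2 : r ∣ y := by exact_mod_cast h1
  have h3 := Nat.dvd_gcd h.hrx h2
  rw [h.hxy] at h3
  exact h.hr.one_lt.ne' (Nat.dvd_one.1 h3)

theorem rz (h : CbrData p q r x y z e δ M) : ¬ r ∣ z := by
  intro h2
  have h3 := Nat.dvd_gcd h.hrx h2
  rw [h.hxz] at h3
  exact h.hr.one_lt.ne' (Nat.dvd_one.1 h3)

theorem re (h : CbrData p q r x y z e δ M) : IsUnit e := by
  rcases h.he with h1 | h1 <;> rw [h1]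
  · exact isUnit_one
  · exact isUnit_one.neg

theorem rb (h : CbrData p q r x y z e δ M) : ¬ (r : ℤ) ∣ e * (z : ℤ) ^ p := by
  intro h1
  rw [h.re.dvd_mul_left] at h1
  have h2 := (Nat.prime_iff_prime_int.mp h.hr).dvd_of_dvd_pow h1
  exact h.rz (by exact_mod_cast h2)

theorem cop (h : CbrData p q r x y z e δ M) : IsCoprime (y : ℤ) (e * (z : ℤ) ^ p) := by
  have h1 : IsCoprime (y : ℤ) ((z : ℤ) ^ p) := (Nat.isCoprime_iff_coprime.mpr h.hyz).pow_right
  exact (isCoprime_mul_unit_left_right h.re _ _).2 h1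

theorem nu (h : CbrData p q r x y z e δ M) : 1 ≤ padicValNat r x := by
  have := Fact.mk h.hr
  exact one_le_padicValNat_of_dvd (by have := h.hx; omega) h.hrx

theorem dvd (h : CbrData p q r x y z e δ M) :
    (r : ℤ) ^ (p * padicValNat r x) ∣ (y : ℤ) ^ q - (e * (z : ℤ) ^ p) ^ q := by
  rw [h.heq, mul_comm p, pow_mul]
  apply Dvd.dvd.mul_left
  apply pow_dvd_pow_of_dvd
  have h1 : r ^ (padicValNat r x) ∣ x := pow_padicValNat_dvd
  exact_mod_cast h1

theorem triv (h : CbrData p q r x y z e δ M) :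
    p * (padicValNat r x) * Real.log r ≤ M := by
  refine le_trans ?_ h.hxM
  have h1 : r ^ (padicValNat r x) ∣ x := pow_padicValNat_dvd
  have h2 : r ^ (padicValNat r x) ≤ x := Nat.le_of_dvd h.hx h1
  have h3 : Real.log ((r ^ (padicValNat r x) : ℕ) : ℝ) ≤ Real.log x := by
    apply Real.log_le_log
    · exact_mod_cast Nat.one_le_pow _ _ h.hr.pos
    · exact_mod_cast h2
  push_cast at h3
  rw [Real.log_pow] at h3
  rw [mul_assoc]
  exact mul_le_mul_of_nonneg_left h3 (Nat.cast_nonneg _)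

theorem log_rx (h : CbrData p q r x y z e δ M) : Real.log 2 ≤ Real.log r := by
  apply Real.log_le_log (by norm_num)
  exact_mod_cast h.hr.two_le

theorem pM (h : CbrData p q r x y z e δ M) : p * Real.log 2 ≤ M := by
  refine le_trans ?_ h.triv
  have h1 : (1 : ℝ) ≤ padicValNat r x := by exact_mod_cast h.nu
  have h2 := h.log_rx
  have h3 : 0 < Real.log 2 := Real.log_pos (by norm_num)
  have hp : (0 : ℝ) < p := by exact_mod_cast h.hp.pos
  have h4 : Real.log 2 ≤ padicValNat r x * Real.log r := by nlinarith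
  calc p * Real.log 2 ≤ p * (padicValNat r x * Real.log r) :=
        mul_le_mul_of_nonneg_left h4 hp.le
    _ = _ := by ring

theorem M0 (h : CbrData p q r x y z e δ M) : 0 < M := by
  have h1 := h.pM
  have h3 : 0 < Real.log 2 := Real.log_pos (by norm_num)
  have hp : (0 : ℝ) < p := by exact_mod_cast h.hp.pos
  have : 0 < p * Real.log 2 := by positivity
  linarith

theorem ya (h : CbrData p q r x y z e δ M) : |((y : ℤ) : ℝ)| ≤ Real.exp (M / q) := by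
  have hq : (0 : ℝ) < q := by exact_mod_cast h.hq.pos
  have hy : (0 : ℝ) < y := by exact_mod_cast h.hy
  rw [Int.cast_natCast, Nat.abs_cast, ← Real.log_le_iff_le_exp hy, le_div_iff₀ hq, mul_comm]
  exact h.hyM

theorem zb (h : CbrData p q r x y z e δ M) :
    |((e * (z : ℤ) ^ p : ℤ) : ℝ)| ≤ Real.exp (M / q) := by
  have hq : (0 : ℝ) < q := by exact_mod_cast h.hq.pos
  have hz : (0 : ℝ) < z := by exact_mod_cast h.hz
  have h1 : |((e * (z : ℤ) ^ p : ℤ) : ℝ)| = (z : ℝ) ^ p := by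
    push_cast
    rw [abs_mul, abs_pow, Nat.abs_cast]
    rcases h.he with h1 | h1 <;> rw [h1] <;> simp
  rw [h1, ← Real.log_le_iff_le_exp (by positivity), le_div_iff₀ hq, Real.log_pow]
  have h2 := h.hzM
  nlinarith

/-- size of `d` -/
theorem logd (h : CbrData p q r x y z e δ M) {d : ℕ} (hd1 : 1 ≤ d)
    (hd : d = ((y : ℤ) - e * (z : ℤ) ^ p).natAbs) : Real.log d ≤ Real.log 2 + M / q := by
  have h1 : (d : ℝ) ≤ 2 * Real.exp (M / q) := by
    have h2 : (d : ℝ) = |((y : ℤ) : ℝ) - ((e * (z : ℤ) ^ p : ℤ) : ℝ)| := by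
      rw [hd, ← Int.cast_sub, ← Int.cast_abs, Int.abs_eq_natAbs, Int.cast_natCast]
    rw [h2]
    refine (abs_sub _ _).trans ?_
    have := h.ya
    have := h.zb
    linarith
  have h3 : (0 : ℝ) < d := by exact_mod_cast hd1
  have h4 := Real.log_le_log h3 h1
  rwa [Real.log_mul (by norm_num) (Real.exp_pos _).ne', Real.log_exp] at h4

/-- size of `F` -/
theorem logF (h : CbrData p q r x y z e δ M) {F : ℕ} (hF1 : 1 ≤ F)
    (hF : (F : ℤ) = ∑ i ∈ range q, (y : ℤ) ^ i * (e * (z : ℤ) ^ p) ^ (q - 1 - i)) :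
    Real.log F ≤ Real.log q + M := by
  have hq : (0 : ℝ) < q := by exact_mod_cast h.hq.pos
  have h1 := cbr_phi_le q (y : ℤ) (e * (z : ℤ) ^ p) (Real.exp (M / q)) (Real.exp_pos _).le h.ya h.zb
  rw [← hF, Int.cast_natCast] at h1
  have h3 : (0 : ℝ) < F := by exact_mod_cast hF1
  have h4 := Real.log_le_log h3 h1
  rw [Real.log_mul hq.ne' (by positivity), Real.log_pow, Real.log_exp] at h4
  have h5 : ((q - 1 : ℕ) : ℝ) * (M / q) ≤ M := by
    have h6 : ((q - 1 : ℕ) : ℝ) ≤ q := by exact_mod_cast Nat.sub_le q 1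
    have h7 : 0 ≤ M / q := div_nonneg h.M0.le hq.le
    calc ((q - 1 : ℕ) : ℝ) * (M / q) ≤ q * (M / q) := mul_le_mul_of_nonneg_right h6 h7
      _ = M := by field_simp
  linarith

end CbrData

/-- the case `p < q` -/
theorem cbr_big {p q r x y z : ℕ} {e δ : ℤ} {M : ℝ} (h : CbrData p q r x y z e δ M) :
    p * (padicValNat r x) * Real.log r ≤ 4 * r ^ 10 * (Real.log q ^ 3 / q) * M := by
  have hL := log3_ge_one' h.hq3
  set L := Real.log q with hLdef
  have hq0 : (0 : ℝ) < q := by exact_mod_cast h.hq.pos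
  have hr1 : (1 : ℝ) ≤ r := by exact_mod_cast h.hr.one_le
  have hM := h.M0
  have hL3 : 1 ≤ L ^ 3 := one_le_pow₀ hL
  by_cases hqr : q < r
  · refine h.triv.trans ?_
    have h1 : (q : ℝ) ≤ r ^ 10 := by
      have h2 : (q : ℝ) ≤ r := by exact_mod_cast hqr.le
      have h3 : (r : ℝ) ^ 1 ≤ r ^ 10 := pow_le_pow_right₀ hr1 (by norm_num)
      linarith
    have h4 : 1 ≤ 4 * (r : ℝ) ^ 10 * (L ^ 3 / q) := by
      rw [mul_div_assoc', le_div_iff₀ hq0]
      nlinarith [mul_nonneg (sub_nonneg.2 hL3) (sub_nonneg.2 h1)]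
    calc M = 1 * M := (one_mul M).symm
      _ ≤ _ := mul_le_mul_of_nonneg_right h4 hM.le
  · have hxy : (r : ℤ) ∣ (y : ℤ) - e * (z : ℤ) ^ p := by
      by_contra hc
      apply hqr
      apply cbr_order h.hr h.hq h.ry h.rb hc
      have hp := h.hp.pos
      have hn := h.nu
      have hmul : p * padicValNat r x ≠ 0 := by positivity
      exact (dvd_pow_self _ hmul).trans h.dvd
    have h1 := cbr_lte h.hr h.hq h.hq3 h.ry hxy h.dvd
    obtain ⟨d, F, hd, hF, hd1, hF1, hdF, -⟩ :=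
      cbr_fac h.hp.one_le h.hq h.hq3 h.hx h.cop h.hδ h.heq
    have h2 : r ^ (p * padicValNat r x) ∣ q * d := by
      rw [hd]
      have h3 := Int.natAbs_dvd_natAbs.2 h1
      rwa [Int.natAbs_mul, Int.natAbs_pow, Int.natAbs_natCast, Int.natAbs_natCast] at h3
    have h3 : r ^ (p * padicValNat r x) ≤ q * d := Nat.le_of_dvd (by have := h.hq.pos; positivity) h2
    have h4 : Real.log ((r ^ (p * padicValNat r x) : ℕ) : ℝ) ≤ Real.log ((q * d : ℕ) : ℝ) := by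
      apply Real.log_le_log
      · exact_mod_cast Nat.one_le_pow _ _ h.hr.pos
      · exact_mod_cast h3
    have hd0 : (0 : ℝ) < d := by exact_mod_cast hd1
    push_cast at h4
    rw [Real.log_pow, Real.log_mul hq0.ne' hd0.ne'] at h4
    push_cast at h4
    have h5 := h.logd hd1 hd
    have hl2 : (0.69 : ℝ) ≤ Real.log 2 := by have := Real.log_two_gt_d9; linarith
    have hl2' : Real.log 2 ≤ 0.7 := by have := Real.log_two_lt_d9; linarith
    have h6 : (0.69 : ℝ) ≤ M / q := by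
      rw [le_div_iff₀ hq0]
      have := h.hqM
      nlinarith
    -- L + log 2 + M/q ≤ 4 L^3 M/q
    have h7 : L + (Real.log 2 + M / q) ≤ 4 * L ^ 3 * (M / q) := by
      have hLL : L ≤ L ^ 3 := le_self_pow₀ hL (by norm_num)
      have h8 : 4 * L * (M / q) ≤ 4 * L ^ 3 * (M / q) := by
        apply mul_le_mul_of_nonneg_right _ (by linarith)
        linarith
      have h9 : L * (M / q) ≥ M / q := by nlinarith
      have h10 : L * (M / q) ≥ 0.69 * L := by nlinarith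
      nlinarith
    have h11 : (1 : ℝ) ≤ r ^ 10 := one_le_pow₀ hr1
    calc p * (padicValNat r x) * Real.log r ≤ 4 * L ^ 3 * (M / q) := by linarith
      _ = 1 * (4 * (L ^ 3 / q) * M) := by ring
      _ ≤ r ^ 10 * (4 * (L ^ 3 / q) * M) := mul_le_mul_of_nonneg_right h11 (by positivity)
      _ = _ := by ring

/-! ### The case `q < p` -/

namespace CbrData

variable {p q r x y z : ℕ} {e δ : ℤ} {M : ℝ}

theorem p3 (h : CbrData p q r x y z e δ M) (hlt : q < p) : 5 ≤ p := by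
  have h1 := h.hq3
  have h2 : p ≠ 4 := by
    intro h4
    have := h.hp
    rw [h4] at this
    exact absurd this (by decide)
  omega

theorem two_mul_le_two_pow : ∀ n : ℕ, 3 ≤ n → 2 * n ≤ 2 ^ n := by
  intro n hn
  induction n, hn using Nat.le_induction with
  | base => norm_num
  | succ m hm ih => rw [pow_succ]; omega

theorem l2q (h : CbrData p q r x y z e δ M) : Real.log 2 + Real.log q ≤ M := by
  have hq : (0 : ℝ) < q := by exact_mod_cast h.hq.pos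
  rw [← Real.log_mul (by norm_num) hq.ne']
  refine le_trans ?_ h.hqM
  rw [← Real.log_pow]
  apply Real.log_le_log (by positivity)
  exact_mod_cast two_mul_le_two_pow q h.hq3

/-- size of `U` -/
theorem logU (h : CbrData p q r x y z e δ M) {d κ U : ℕ} (hd1 : 1 ≤ d)
    (hd : d = ((y : ℤ) - e * (z : ℤ) ^ p).natAbs) (hκ : κ = 1 ∨ κ = q) (hU : κ * d = U ^ p) :
    Real.log U ≤ 2 * M / p := by
  have hq : (0 : ℝ) < q := by exact_mod_cast h.hq.pos
  have hp : (0 : ℝ) < p := by exact_mod_cast h.hp.pos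
  have hd0 : (0 : ℝ) < d := by exact_mod_cast hd1
  have hM := h.M0
  rw [le_div_iff₀ hp, mul_comm, ← Real.log_pow]
  have h1 : (U : ℝ) ^ p = κ * d := by exact_mod_cast hU.symm
  have hκ0 : (0 : ℝ) < κ := by
    rcases hκ with h2 | h2 <;> rw [h2]
    · norm_num
    · exact hq
  have hκ1 : Real.log κ ≤ Real.log q := by
    have : (1 : ℝ) ≤ q := by exact_mod_cast h.hq.one_le
    rcases hκ with h2 | h2 <;> rw [h2]
    rw [Nat.cast_one, Real.log_one]
    exact Real.log_nonneg this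
  rw [h1, Real.log_mul hκ0.ne' hd0.ne']
  have h3 := h.logd hd1 hd
  have h4 := h.l2q
  have h5 : M / q ≤ M := div_le_self hM.le (by exact_mod_cast h.hq.one_le)
  linarith

/-- size of `v` -/
theorem logv (h : CbrData p q r x y z e δ M) {F κ v : ℕ} (hF1 : 1 ≤ F)
    (hF : (F : ℤ) = ∑ i ∈ range q, (y : ℤ) ^ i * (e * (z : ℤ) ^ p) ^ (q - 1 - i)) (hκ : 1 ≤ κ)
    (hv : F = κ * v ^ p) : Real.log v ≤ 2 * M / p := by
  have hp : (0 : ℝ) < p := by exact_mod_cast h.hp.pos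
  have hF0 : (0 : ℝ) < F := by exact_mod_cast hF1
  have hvF : v ^ p ≤ F := by
    rw [hv]
    exact Nat.le_mul_of_pos_left _ hκ
  have hv0 : 0 < v := by
    rcases Nat.eq_zero_or_pos v with h1 | h1
    · rw [h1, zero_pow h.hp.ne_zero, mul_zero] at hv
      omega
    · exact h1
  have hv0' : (0 : ℝ) < v := by exact_mod_cast hv0
  rw [le_div_iff₀ hp, mul_comm, ← Real.log_pow]
  have h1 : Real.log ((v : ℝ) ^ p) ≤ Real.log F := by
    apply Real.log_le_log (by positivity)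
    exact_mod_cast hvF
  have h2 := h.logF hF1 hF
  have h3 := h.l2q
  have h4 : 0 < Real.log 2 := Real.log_pos (by norm_num)
  linarith

theorem logz (h : CbrData p q r x y z e δ M) : Real.log z ≤ 2 * M / p := by
  have hp : (0 : ℝ) < p := by exact_mod_cast h.hp.pos
  have hq : (1 : ℝ) ≤ q := by exact_mod_cast h.hq.one_le
  rw [le_div_iff₀ hp]
  have h1 := h.hzM
  have h2 := h.M0
  have h3 : 0 ≤ Real.log z := Real.log_natCast_nonneg z
  have h4 : Real.log z * p ≤ p * q * Real.log z := by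
    have : 0 ≤ Real.log z * p := by positivity
    nlinarith
  linarith

theorem logzq (h : CbrData p q r x y z e δ M) : Real.log ((z ^ (q - 1) : ℕ) : ℝ) ≤ 2 * M / p := by
  have hp : (0 : ℝ) < p := by exact_mod_cast h.hp.pos
  push_cast
  rw [Real.log_pow, le_div_iff₀ hp]
  have h1 := h.hzM
  have h2 := h.M0
  have h3 : 0 ≤ Real.log z := Real.log_natCast_nonneg z
  have h6 : ((q - 1 : ℕ) : ℝ) ≤ q := by exact_mod_cast Nat.sub_le q 1
  have h7 : ((q - 1 : ℕ) : ℝ) * Real.log z * p ≤ p * q * Real.log z := by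
    have : 0 ≤ Real.log z * p := by positivity
    nlinarith
  linarith

/-- `b ^ (q - 1) = (z ^ (q - 1)) ^ p` -/
theorem bpow (h : CbrData p q r x y z e δ M) :
    (e * (z : ℤ) ^ p) ^ (q - 1) = ((z ^ (q - 1) : ℕ) : ℤ) ^ p := by
  have hev : Even (q - 1) := by
    have := h.hq.odd_of_ne_two (by have := h.hq3; omega)
    rcases this with ⟨k, hk⟩
    exact ⟨k, by omega⟩
  rw [mul_pow]
  have h1 : e ^ (q - 1) = 1 := by
    rcases h.he with h1 | h1 <;> rw [h1]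
    · exact one_pow _
    · exact hev.neg_one_pow
  rw [h1, one_mul]
  push_cast
  rw [← pow_mul, ← pow_mul, mul_comm]

end CbrData

/-- the trivial case: `p` small compared with `r` -/
theorem cbr_small {p q r x y z : ℕ} {e δ : ℤ} {M c : ℝ} (h : CbrData p q r x y z e δ M)
    (hc : (p : ℝ) ≤ c * r ^ 10 * Real.log p ^ 3) :
    p * (padicValNat r x) * Real.log r ≤ c * r ^ 10 * (Real.log p ^ 3 / p) * M := by
  have hp : (0 : ℝ) < p := by exact_mod_cast h.hp.pos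
  refine h.triv.trans ?_
  have h4 : 1 ≤ c * (r : ℝ) ^ 10 * (Real.log p ^ 3 / p) := by
    rw [mul_div_assoc', le_div_iff₀ hp]
    linarith
  calc M = 1 * M := (one_mul M).symm
    _ ≤ _ := mul_le_mul_of_nonneg_right h4 h.M0.le

/-- the root `v` is not `z ^ (q - 1)` -/
theorem cbr_ne {p q r x y z : ℕ} {e δ : ℤ} {M : ℝ} (h : CbrData p q r x y z e δ M) (hlt : q < p)
    {d F U v : ℕ} (hd : d = ((y : ℤ) - e * (z : ℤ) ^ p).natAbs)
    (hF : (F : ℤ) = ∑ i ∈ range q, (y : ℤ) ^ i * (e * (z : ℤ) ^ p) ^ (q - 1 - i))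
    (hd1 : 1 ≤ d) (hdF : d * F = x ^ p) (hqU : q ∣ U) (hU : q * d = U ^ p) (hv : F = q * v ^ p) :
    v ≠ z ^ (q - 1) := by
  intro hvz
  have hq3 := h.hq3
  have hp5 := h.p3 hlt
  -- z = 1
  have h1 := cbr_phi_mod' q (by omega) (y : ℤ) (e * (z : ℤ) ^ p)
  have h2 : (e * (z : ℤ) ^ p) ∣ (F : ℤ) := by
    rw [hv, hvz]
    push_cast
    apply Dvd.dvd.mul_left
    have h3 := h.bpow
    push_cast at h3
    rw [← h3]
    exact dvd_pow_self _ (by omega)
  rw [← hF] at h1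
  have h3 : (e * (z : ℤ) ^ p) ∣ (y : ℤ) ^ (q - 1) := by
    have := dvd_sub h2 h1
    simpa using this
  have h4 : IsUnit (e * (z : ℤ) ^ p) := h.cop.symm.pow_right.isUnit_of_dvd' dvd_rfl h3
  have h5 : IsUnit ((z : ℤ) ^ p) := isUnit_of_mul_isUnit_right h4
  have h6 : IsUnit (z : ℤ) := (isUnit_pow_iff h.hp.ne_zero).1 h5
  have hz1 : z = 1 := by
    have := Int.isUnit_iff_natAbs_eq.1 h6
    simpa using this
  subst hz1
  have hv1 : v = 1 := by rw [hvz, one_pow]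
  rw [hv1, one_pow, mul_one] at hv
  -- now `q (y - e) = y ^ q - e`
  have hgeo := geom_sum₂_mul (y : ℤ) (e * ((1 : ℕ) : ℤ) ^ p) q
  rw [← hF, hv] at hgeo
  simp only [Nat.cast_one, one_pow, mul_one] at hgeo hd
  have hodd : Odd q := h.hq.odd_of_ne_two (by omega)
  have heq : e ^ q = e := by
    rcases h.he with h1 | h1 <;> rw [h1]
    · exact one_pow _
    · exact hodd.neg_one_pow
  rw [heq] at hgeo
  -- q | d
  have hqd : (q : ℤ) ∣ (y : ℤ) - e := by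
    have h7 : q ^ p ∣ q * d := by rw [hU]; exact pow_dvd_pow_of_dvd hqU p
    have h8 : q * q ∣ q * d := by
      refine dvd_trans ?_ h7
      rw [← sq]
      exact pow_dvd_pow q (by omega)
    have h9 : q ∣ d := Nat.dvd_of_mul_dvd_mul_left (by omega) h8
    rw [hd] at h9
    exact Int.natCast_dvd.2 h9
  have hy := h.hy
  have hyZ : (1 : ℤ) ≤ y := by exact_mod_cast hy
  have hqZ : (3 : ℤ) ≤ q := by exact_mod_cast hq3
  have hd1' : (y : ℤ) - e ≠ 0 := by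
    intro h7
    rw [h7] at hd
    simp at hd
    omega
  have hypos : (y : ℤ) - e > 0 := by
    rcases h.he with h7 | h7 <;> rw [h7] at hd1' ⊢ <;> omega
  have hqle : (q : ℤ) ≤ (y : ℤ) - e := Int.le_of_dvd hypos hqd
  have hy2 : (2 : ℤ) ≤ y := by
    rcases h.he with h7 | h7 <;> rw [h7] at hqle <;> omega
  by_cases hq4 : 4 ≤ q
  · have h8 : (y : ℤ) ^ 4 ≤ (y : ℤ) ^ q := pow_le_pow_right₀ (by linarith) hq4
    have h9 : (q : ℤ) * ((y : ℤ) - e) ≤ ((y : ℤ) - e) * ((y : ℤ) - e) :=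
      mul_le_mul_of_nonneg_right hqle hypos.le
    have h10 : (4 : ℤ) ≤ q := by exact_mod_cast hq4
    have h11 : (3 : ℤ) ≤ y := by
      rcases h.he with h7 | h7 <;> rw [h7] at hqle <;> omega
    have h12 : (y : ℤ) ^ 4 ≥ 27 * y := by
      have : (y : ℤ) ^ 3 ≥ 27 := by nlinarith [sq_nonneg ((y : ℤ) - 3)]
      nlinarith
    have h13 : (y : ℤ) ^ 4 ≥ 9 * y ^ 2 := by nlinarith [sq_nonneg ((y : ℤ) - 3)]
    rcases h.he with h7 | h7 <;> rw [h7] at hgeo h9 <;> nlinarith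
  · have hq3' : q = 3 := by omega
    subst hq3'
    rcases h.he with h7 | h7
    · rw [h7] at hgeo
      push_cast at hgeo
      have h8 : (y : ℤ) ^ 3 ≥ 4 * y := by
        have h9 : (y : ℤ) ^ 2 ≥ 4 := by nlinarith
        nlinarith
      linarith
    · rw [h7] at hgeo
      push_cast at hgeo
      have hy2' : (y : ℤ) = 2 := by
        by_contra hc
        have h8 : (3 : ℤ) ≤ y := by omega
        nlinarith [mul_nonneg (sub_nonneg.2 h8) (sub_nonneg.2 h8)]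
      rw [hy2', h7] at hd
      have hd3 : d = 3 := by rw [hd]; rfl
      rw [hd3, hv] at hdF
      -- x ^ p = 9
      have hx1 : 2 ≤ x := by
        have := Nat.le_of_dvd h.hx h.hrx
        have := h.hr.two_le
        omega
      have h9 : 2 ^ 5 ≤ x ^ p := by
        calc 2 ^ 5 ≤ 2 ^ p := Nat.pow_le_pow_right (by norm_num) hp5
          _ ≤ x ^ p := Nat.pow_le_pow_left hx1 p
      omega

theorem CbrData.A1 {p q r x y z : ℕ} {e δ : ℤ} {M : ℝ} (h : CbrData p q r x y z e δ M) :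
    1 ≤ 2 * M / p := by
  have hp : (0 : ℝ) < p := by exact_mod_cast h.hp.pos
  rw [le_div_iff₀ hp]
  have h1 := h.pM
  have h2 : (0.69 : ℝ) ≤ Real.log 2 := by have := Real.log_two_gt_d9; linarith
  nlinarith

/-- (a): `r ∣ y - e z ^ p`, `q ∤ x` -/
theorem cbr_a {Ca : ℝ} (hCa : 1 ≤ Ca)
    (hArr : ∀ (r X₁ X₂ Y k₀ l j V : ℕ) (A B : ℝ), r.Prime → ¬ r ∣ X₁ → ¬ r ∣ X₂ →
      ¬ r ∣ Y → 2 ≤ Y → 1 ≤ k₀ → 1 ≤ l → 1 ≤ j → Nat.Coprime l k₀ → 1 ≤ A → 1 ≤ B →
      Real.log X₁ ≤ A → Real.log X₂ ≤ A → Real.log Y ≤ B → (k₀ : ℝ) ≤ A * l →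
      Ca * r * B * (1 + Real.log l) ≤ l →
      (r : ℤ) ^ V ∣ ((X₁ : ℤ) ^ l) ^ (2 * j) - ((X₂ : ℤ) ^ l * (Y : ℤ) ^ k₀) ^ (2 * j) →
      V * Real.log r ≤ Ca * r ^ 3 * (A * B) * (1 + Real.log l) ^ 2 + Real.log j)
    {p q r x y z : ℕ} {e δ : ℤ} {M : ℝ} (h : CbrData p q r x y z e δ M) (hlt : q < p)
    (hrD : (r : ℤ) ∣ (y : ℤ) - e * (z : ℤ) ^ p) (hqx : ¬ q ∣ x) {F v : ℕ}
    (hF : (F : ℤ) = ∑ i ∈ range q, (y : ℤ) ^ i * (e * (z : ℤ) ^ p) ^ (q - 1 - i))
    (hF1 : 1 ≤ F) (hv : F = v ^ p) :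
    p * (padicValNat r x) * Real.log r ≤ 8 * Ca * r ^ 10 * (Real.log p ^ 3 / p) * M := by
  have hp5 := h.p3 hlt
  have hL := log3_ge_one' (show 3 ≤ p by omega)
  have hp0 : (0 : ℝ) < p := by exact_mod_cast h.hp.pos
  have hq0 : (0 : ℝ) < q := by exact_mod_cast h.hq.pos
  have hr1 : (1 : ℝ) ≤ r := by exact_mod_cast h.hr.one_le
  have hM := h.M0
  have hqL : Real.log q ≤ Real.log p := by
    apply Real.log_le_log hq0
    exact_mod_cast hlt.le
  have hq1 := log3_ge_one' h.hq3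
  set L := Real.log p with hLdef
  by_cases hsm : Ca * r * Real.log q * (1 + L) ≤ p
  · have hrZ : Prime (r : ℤ) := Nat.prime_iff_prime_int.mp h.hr
    have hrq : ¬ r ∣ q := by
      intro h1
      have h2 := (Nat.prime_dvd_prime_iff_eq h.hr h.hq).1 h1
      exact hqx (h2 ▸ h.hrx)
    have hrqZ : ¬ (r : ℤ) ∣ (q : ℤ) := fun h1 => hrq (by exact_mod_cast h1)
    have hmod := cbr_phi_mod q (y : ℤ) (e * (z : ℤ) ^ p)
    rw [← hF, h.bpow, hv] at hmod
    push_cast at hmod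
    have hrv : ¬ r ∣ v := by
      intro h1
      have h2 : (r : ℤ) ∣ (v : ℤ) ^ p := dvd_pow (by exact_mod_cast h1) h.hp.ne_zero
      have h3 := (dvd_sub_right h2).1 (hrD.trans hmod)
      rcases hrZ.dvd_or_dvd h3 with h4 | h4
      · exact hrqZ h4
      · have h5 := hrZ.dvd_of_dvd_pow h4
        have h6 := hrZ.dvd_of_dvd_pow h5
        exact h.rz (by exact_mod_cast h6)
    have hrz : ¬ r ∣ z ^ (q - 1) := fun h1 => h.rz (h.hr.dvd_of_dvd_pow h1)
    have h1 := cbr_lte h.hr h.hq h.hq3 h.ry hrD h.dvd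
    have h2 : (r : ℤ) ^ (p * padicValNat r x) ∣ (y : ℤ) - e * (z : ℤ) ^ p := by
      refine IsCoprime.dvd_of_dvd_mul_left ?_ h1
      exact IsCoprime.pow_left ((hrZ.irreducible.coprime_iff_not_dvd).mpr hrqZ)
    have h3 : (r : ℤ) ^ (p * padicValNat r x) ∣ ((v : ℤ) ^ p) ^ (2 * 1) -
        ((((z ^ (q - 1) : ℕ) : ℤ)) ^ p * (q : ℤ) ^ 1) ^ (2 * 1) := by
      refine dvd_trans (h2.trans hmod) ?_
      have h4 : (v : ℤ) ^ p - q * ((z : ℤ) ^ (q - 1)) ^ p =
          (v : ℤ) ^ p - (((z ^ (q - 1) : ℕ) : ℤ)) ^ p * (q : ℤ) ^ 1 := by push_cast; ring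
      rw [h4]
      exact sub_dvd_pow_sub_pow _ _ _
    have h5 := hArr r v (z ^ (q - 1)) q 1 p 1 (p * padicValNat r x) (2 * M / p) (Real.log q)
      h.hr hrv hrz hrq h.hq.two_le le_rfl h.hp.one_le le_rfl (Nat.coprime_one_right p) h.A1 hq1
      (h.logv hF1 hF le_rfl (by rw [one_mul]; exact hv)) h.logzq le_rfl
      (by
        rw [Nat.cast_one]
        have := h.A1
        have : (1 : ℝ) ≤ p := by exact_mod_cast h.hp.one_le
        nlinarith [mul_nonneg (sub_nonneg.2 h.A1) (sub_nonneg.2 this)]) hsm h3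
    rw [Nat.cast_one, Real.log_one, add_zero] at h5
    push_cast at h5
    refine h5.trans ?_
    have h6 : (1 + L) ^ 2 ≤ 4 * L ^ 2 := by nlinarith
    have h7 : (r : ℝ) ^ 3 ≤ r ^ 10 := pow_le_pow_right₀ hr1 (by norm_num)
    have hMp : 0 < M / p := by positivity
    calc Ca * r ^ 3 * (2 * M / p * Real.log q) * (1 + L) ^ 2
        ≤ Ca * r ^ 10 * (2 * M / p * L) * (4 * L ^ 2) := by
          have h8 : 2 * M / p * Real.log q ≤ 2 * M / p * L :=
            mul_le_mul_of_nonneg_left hqL (by positivity)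
          have h9 : Ca * (r : ℝ) ^ 3 ≤ Ca * r ^ 10 := mul_le_mul_of_nonneg_left h7 (by linarith)
          have hlq : 0 ≤ Real.log q := by linarith
          exact mul_le_mul (mul_le_mul h9 h8 (by positivity) (by positivity)) h6 (by positivity)
            (by positivity)
      _ = 8 * Ca * r ^ 10 * (L ^ 3 / p) * M := by ring
  · rw [not_le] at hsm
    have h1 : (p : ℝ) ≤ (8 * Ca) * r ^ 10 * L ^ 3 := by
      refine hsm.le.trans ?_
      have h2 : (r : ℝ) ≤ r ^ 10 := le_self_pow₀ hr1 (by norm_num)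
      have h3 : Real.log q * (1 + L) ≤ 8 * L ^ 3 := by
        have h4 : Real.log q * (1 + L) ≤ L * (2 * L) :=
          mul_le_mul hqL (by linarith) (by linarith) (by linarith)
        have h5 : L ^ 2 ≤ L ^ 3 := pow_le_pow_right₀ hL (by norm_num)
        nlinarith
      calc Ca * r * Real.log q * (1 + L) = Ca * r * (Real.log q * (1 + L)) := by ring
        _ ≤ Ca * r ^ 10 * (8 * L ^ 3) := by
          have hlq : 0 ≤ Real.log q := by linarith
          exact mul_le_mul (mul_le_mul_of_nonneg_left h2 (by linarith)) h3 (by positivity)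
            (by positivity)
        _ = _ := by ring
    exact cbr_small h h1

/-- (b): `r ∣ y - e z ^ p`, `F = q v ^ p` -/
theorem cbr_b (hLtr : Stmt_Ltr)
    {p q r x y z : ℕ} {e δ : ℤ} {M : ℝ} (h : CbrData p q r x y z e δ M) (hlt : q < p)
    (hrD : (r : ℤ) ∣ (y : ℤ) - e * (z : ℤ) ^ p) {d F U v : ℕ}
    (hd : d = ((y : ℤ) - e * (z : ℤ) ^ p).natAbs)
    (hF : (F : ℤ) = ∑ i ∈ range q, (y : ℤ) ^ i * (e * (z : ℤ) ^ p) ^ (q - 1 - i))
    (hd1 : 1 ≤ d) (hF1 : 1 ≤ F) (hdF : d * F = x ^ p) (hqU : q ∣ U) (hU : q * d = U ^ p)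
    (hv : F = q * v ^ p) :
    p * (padicValNat r x) * Real.log r ≤ 9 * r ^ 10 * (Real.log p ^ 3 / p) * M := by
  have hp5 := h.p3 hlt
  have hL := log3_ge_one' (show 3 ≤ p by omega)
  have hp0 : (0 : ℝ) < p := by exact_mod_cast h.hp.pos
  have hr1 : (1 : ℝ) ≤ r := by exact_mod_cast h.hr.one_le
  have hM := h.M0
  have hrZ : Prime (r : ℤ) := Nat.prime_iff_prime_int.mp h.hr
  have hqpos := h.hq.pos
  set V := p * padicValNat r x with hV
  have hV5 : 5 ≤ V := by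
    have := h.nu
    nlinarith
  -- r ^ (V - 1) divides the difference
  have h1 := cbr_lte h.hr h.hq h.hq3 h.ry hrD h.dvd
  rw [← hV] at h1
  have hstep : ∀ (W : ℕ) (t : ℤ), (r : ℤ) ^ (W + 1) ∣ q * t → (r : ℤ) ^ W ∣ t := by
    intro W t ht
    by_cases hrq : r = q
    · rw [pow_succ, mul_comm, hrq] at ht
      rw [hrq]
      exact (mul_dvd_mul_iff_left (by exact_mod_cast hqpos.ne')).1 ht
    · have hrqZ : ¬ (r : ℤ) ∣ (q : ℤ) := by
        intro h2
        exact hrq ((Nat.prime_dvd_prime_iff_eq h.hr h.hq).1 (by exact_mod_cast h2))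
      have h3 : (r : ℤ) ^ (W + 1) ∣ t := by
        refine IsCoprime.dvd_of_dvd_mul_left ?_ ht
        exact IsCoprime.pow_left ((hrZ.irreducible.coprime_iff_not_dvd).mpr hrqZ)
      exact (pow_dvd_pow _ (Nat.le_succ _)).trans h3
  have h2 : (r : ℤ) ^ (V - 1) ∣ (y : ℤ) - e * (z : ℤ) ^ p := by
    apply hstep
    rwa [Nat.sub_add_cancel (by omega)]
  have hmod := cbr_phi_mod q (y : ℤ) (e * (z : ℤ) ^ p)
  rw [← hF, h.bpow, hv] at hmod
  have h3 : (r : ℤ) ^ (V - 2) ∣ (v : ℤ) ^ p - ((z ^ (q - 1) : ℕ) : ℤ) ^ p := by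
    apply hstep
    have h4 : V - 2 + 1 = V - 1 := by omega
    rw [h4]
    have h5 : (q : ℤ) * ((v : ℤ) ^ p - ((z ^ (q - 1) : ℕ) : ℤ) ^ p) =
        ((q * v ^ p : ℕ) : ℤ) - q * ((z ^ (q - 1) : ℕ) : ℤ) ^ p := by push_cast; ring
    rw [h5]
    exact h2.trans hmod
  have hrz : ¬ r ∣ z ^ (q - 1) := fun h1 => h.rz (h.hr.dvd_of_dvd_pow h1)
  have hrv : ¬ r ∣ v := by
    intro h4
    have h5 : (r : ℤ) ∣ (v : ℤ) ^ p := dvd_pow (by exact_mod_cast h4) h.hp.ne_zero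
    have h6 : (r : ℤ) ∣ (v : ℤ) ^ p - ((z ^ (q - 1) : ℕ) : ℤ) ^ p :=
      (dvd_pow_self _ (by omega)).trans h3
    have h7 := (dvd_sub_right h5).1 h6
    have h8 := hrZ.dvd_of_dvd_pow h7
    exact hrz (by exact_mod_cast h8)
  have h4 : (r : ℤ) ^ (V - 2) ∣ (v : ℤ) ^ (2 * p) - ((z ^ (q - 1) : ℕ) : ℤ) ^ (2 * p) := by
    refine h3.trans ?_
    rw [mul_comm, pow_mul, pow_mul]
    exact sub_dvd_pow_sub_pow _ _ _
  obtain ⟨V', hV', hle⟩ := hLtr r v (z ^ (q - 1)) p (V - 2) h.hr hrv hrz h.hp.one_le h4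
  have hne := cbr_ne h hlt hd hF hd1 hdF hqU hU hv
  -- bound for `V'`
  have hv0 : 0 < v := by
    rcases Nat.eq_zero_or_pos v with h5 | h5
    · exact absurd (h5 ▸ dvd_zero r) hrv
    · exact h5
  have hzq0 : 0 < z ^ (q - 1) := by have := h.hz; positivity
  have hlv := h.logv hF1 hF h.hq.one_le hv
  have hlz := h.logzq
  have hn1 : 1 ≤ r - 1 := by have := h.hr.two_le; omega
  have hbound : ∀ X : ℕ, 0 < X → Real.log X ≤ 2 * M / p →
      ((X : ℝ) ^ (2 * (r - 1))) ≤ Real.exp (4 * r * (M / p)) := by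
    intro X hX hX2
    have hX' : (0 : ℝ) < X := by exact_mod_cast hX
    rw [← Real.log_le_iff_le_exp (by positivity), Real.log_pow]
    have h6 : ((2 * (r - 1) : ℕ) : ℝ) ≤ 2 * r := by
      have : 2 * (r - 1) ≤ 2 * r := by omega
      exact_mod_cast this
    have hMp : 0 ≤ 2 * M / p := by positivity
    calc ((2 * (r - 1) : ℕ) : ℝ) * Real.log X ≤ ((2 * (r - 1) : ℕ) : ℝ) * (2 * M / p) :=
          mul_le_mul_of_nonneg_left hX2 (Nat.cast_nonneg _)
      _ ≤ (2 * r) * (2 * M / p) := mul_le_mul_of_nonneg_right h6 hMp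
      _ = _ := by ring
  have hV'log : V' * Real.log r ≤ 4 * r * (M / p) := by
    have hne2 : (v : ℤ) ^ (2 * (r - 1)) - ((z ^ (q - 1) : ℕ) : ℤ) ^ (2 * (r - 1)) ≠ 0 := by
      intro h5
      rw [sub_eq_zero] at h5
      have h6 : v ^ (2 * (r - 1)) = (z ^ (q - 1)) ^ (2 * (r - 1)) := by exact_mod_cast h5
      exact hne (Nat.pow_left_injective (by omega) h6)
    have h5 : (r : ℤ) ^ V' ≤
        |(v : ℤ) ^ (2 * (r - 1)) - ((z ^ (q - 1) : ℕ) : ℤ) ^ (2 * (r - 1))| :=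
      Int.le_of_dvd (abs_pos.2 hne2) ((dvd_abs _ _).2 hV')
    have h6 : (r : ℝ) ^ V' ≤
        |(v : ℝ) ^ (2 * (r - 1)) - ((z ^ (q - 1) : ℕ) : ℝ) ^ (2 * (r - 1))| := by
      have h7 : (((r : ℤ) ^ V' : ℤ) : ℝ) ≤
          ((|(v : ℤ) ^ (2 * (r - 1)) - ((z ^ (q - 1) : ℕ) : ℤ) ^ (2 * (r - 1))| : ℤ) : ℝ) := by
        exact_mod_cast h5
      simpa only [Int.cast_pow, Int.cast_natCast, Int.cast_abs, Int.cast_sub] using h7
    have h7 : (r : ℝ) ^ V' ≤ Real.exp (4 * r * (M / p)) := by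
      refine h6.trans (abs_le.2 ⟨?_, ?_⟩)
      · have := hbound _ hzq0 hlz
        have h8 : (0 : ℝ) ≤ (v : ℝ) ^ (2 * (r - 1)) := by positivity
        linarith
      · have := hbound _ hv0 hlv
        have h8 : (0 : ℝ) ≤ ((z ^ (q - 1) : ℕ) : ℝ) ^ (2 * (r - 1)) := by positivity
        linarith
    rwa [← Real.log_le_iff_le_exp (by positivity), Real.log_pow] at h7
  have hVlog : ((V - 2 : ℕ) : ℝ) * Real.log r ≤ Real.log p + 4 * r * (M / p) := by
    have h5 : ((r : ℝ) ^ (V - 2)) ≤ p * (r : ℝ) ^ V' := by exact_mod_cast hle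
    have hr0 : (0 : ℝ) < r := by linarith
    have h6 := Real.log_le_log (by positivity) h5
    rw [Real.log_pow, Real.log_mul hp0.ne' (by positivity), Real.log_pow] at h6
    linarith
  have hsub : ((V - 2 : ℕ) : ℝ) = V - 2 := by
    push_cast [Nat.cast_sub (show 2 ≤ V by omega)]; ring
  rw [hsub] at hVlog
  have hlr : Real.log r ≤ r := (Real.log_le_sub_one_of_pos (by linarith)).trans (by linarith)
  set L := Real.log p with hLdef
  have hMp : (0.69 : ℝ) ≤ M / p := by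
    rw [le_div_iff₀ hp0]
    have h1 := h.pM
    have h2 : (0.69 : ℝ) ≤ Real.log 2 := by have := Real.log_two_gt_d9; linarith
    nlinarith
  have hLHS : (p : ℝ) * (padicValNat r x) * Real.log r = V * Real.log r := by
    rw [hV]; push_cast; ring
  rw [hLHS]
  have h5 : (V : ℝ) * Real.log r ≤ 2 * r + L + 4 * r * (M / p) := by linarith
  have hr2 : (2 : ℝ) ≤ r := by exact_mod_cast h.hr.two_le
  -- everything is at most `9 r L (M / p)`
  have h6 : 2 * r + L + 4 * r * (M / p) ≤ 9 * (r * L) * (M / p) := by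
    have e1 : 0 ≤ (r - 1) * (L - 1) := mul_nonneg (by linarith) (by linarith)
    have e2 : r + L ≤ r * L + 1 := by nlinarith
    have e3 : r ≤ r * L := by nlinarith
    have e4 : 0 ≤ (r * L) * (M / p - 0.69) := mul_nonneg (by positivity) (by linarith)
    have e5 : 0 ≤ (r * L - r) * (M / p) := mul_nonneg (by linarith) (by linarith)
    have e6 : 2 ≤ r * L := by nlinarith
    nlinarith
  have h7 : r * L ≤ r ^ 10 * L ^ 3 := by
    have h8 : (r : ℝ) ≤ r ^ 10 := le_self_pow₀ hr1 (by norm_num)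
    have h9 : L ≤ L ^ 3 := le_self_pow₀ hL (by norm_num)
    exact mul_le_mul h8 h9 (by linarith) (by positivity)
  calc (V : ℝ) * Real.log r ≤ 9 * (r * L) * (M / p) := h5.trans h6
    _ ≤ 9 * (r ^ 10 * L ^ 3) * (M / p) := by
      apply mul_le_mul_of_nonneg_right _ (by linarith)
      linarith
    _ = _ := by ring

/-- (c): `r` does not divide `y - e z ^ p` -/
theorem cbr_c {Cc : ℝ} (hCc : 1 ≤ Cc)
    (hCyc : ∀ (p q r V s z Y : ℕ) (e : ℤ) (κ : ℕ) (A : ℝ), p.Prime → q.Prime → r.Prime →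
      3 ≤ p → 3 ≤ q → p ≠ q → (e = 1 ∨ e = -1) → (κ = 1 ∨ κ = q) → 1 ≤ s → 1 ≤ z → 1 ≤ Y →
      ¬ r ∣ Y → ¬ r ∣ z → ¬ r ∣ s → ¬ (r : ℤ) ∣ (Y : ℤ) - e * (z : ℤ) ^ p →
      (r : ℤ) ^ V ∣ (Y : ℤ) ^ q - (e * (z : ℤ) ^ p) ^ q → 1 ≤ V →
      ((κ : ℤ) * ((Y : ℤ) - e * (z : ℤ) ^ p) = (s : ℤ) ^ p ∨
        (κ : ℤ) * ((Y : ℤ) - e * (z : ℤ) ^ p) = -(s : ℤ) ^ p) →
      1 ≤ A → Real.log s ≤ A → Real.log z ≤ A → Cc * r ^ 4 * (1 + Real.log p) ≤ p →
      V * Real.log r ≤ Cc * r ^ 9 * A * (1 + Real.log p) ^ 2)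
    {p q r x y z : ℕ} {e δ : ℤ} {M : ℝ} (h : CbrData p q r x y z e δ M) (hlt : q < p)
    (hrD : ¬ (r : ℤ) ∣ (y : ℤ) - e * (z : ℤ) ^ p) {d κ U : ℕ}
    (hd : d = ((y : ℤ) - e * (z : ℤ) ^ p).natAbs) (hd1 : 1 ≤ d)
    (hκ : κ = 1 ∨ κ = q ∧ q ∣ d) (hU : κ * d = U ^ p) :
    p * (padicValNat r x) * Real.log r ≤ 8 * Cc * r ^ 10 * (Real.log p ^ 3 / p) * M := by
  have hp5 := h.p3 hlt
  have hL := log3_ge_one' (show 3 ≤ p by omega)
  have hp0 : (0 : ℝ) < p := by exact_mod_cast h.hp.pos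
  have hr1 : (1 : ℝ) ≤ r := by exact_mod_cast h.hr.one_le
  have hM := h.M0
  have hκ' : κ = 1 ∨ κ = q := hκ.imp id And.left
  set L := Real.log p with hLdef
  by_cases hsm : Cc * r ^ 4 * (1 + L) ≤ p
  · have hrd : ¬ r ∣ d := by
      intro h1
      rw [hd] at h1
      exact hrD (Int.natCast_dvd.2 h1)
    have hrU : ¬ r ∣ U := by
      intro h1
      have h2 : r ∣ κ * d := by rw [hU]; exact dvd_pow h1 h.hp.ne_zero
      rcases (Nat.Prime.dvd_mul h.hr).1 h2 with h3 | h3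
      · rcases hκ with h4 | ⟨h4, h5⟩
        · rw [h4] at h3
          exact h.hr.one_lt.ne' (Nat.dvd_one.1 h3)
        · rw [h4] at h3
          have h6 := (Nat.prime_dvd_prime_iff_eq h.hr h.hq).1 h3
          exact hrd (h6 ▸ h5)
      · exact hrd h3
    have hU1 : 1 ≤ U := by
      rcases Nat.eq_zero_or_pos U with h1 | h1
      · exact absurd (h1 ▸ dvd_zero r) hrU
      · exact h1
    have hV1 : 1 ≤ p * padicValNat r x := Nat.mul_pos h.hp.pos h.nu
    have hsign : (κ : ℤ) * ((y : ℤ) - e * (z : ℤ) ^ p) = (U : ℤ) ^ p ∨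
        (κ : ℤ) * ((y : ℤ) - e * (z : ℤ) ^ p) = -(U : ℤ) ^ p := by
      have h1 : (κ : ℤ) * d = (U : ℤ) ^ p := by exact_mod_cast hU
      rcases Int.natAbs_eq ((y : ℤ) - e * (z : ℤ) ^ p) with h2 | h2
      · left
        rw [h2, ← hd]; exact h1
      · right
        rw [h2, ← hd, mul_neg, h1]
    have h5 := hCyc p q r (p * padicValNat r x) U z y e κ (2 * M / p) h.hp h.hq h.hr (by omega)
      h.hq3 h.hpq h.he hκ' hU1 h.hz h.hy (fun h1 => h.ry (by exact_mod_cast h1)) h.rz hrU hrD h.dvd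
      hV1 hsign h.A1 (h.logU hd1 hd hκ' hU) h.logz hsm
    push_cast at h5
    refine h5.trans ?_
    have h6 : (1 + L) ^ 2 ≤ 4 * L ^ 3 := by
      have h7 : L ^ 2 ≤ L ^ 3 := pow_le_pow_right₀ hL (by norm_num)
      nlinarith
    have h7 : (r : ℝ) ^ 9 ≤ r ^ 10 := pow_le_pow_right₀ hr1 (by norm_num)
    have hMp : 0 < M / p := by positivity
    calc Cc * r ^ 9 * (2 * M / p) * (1 + L) ^ 2
        ≤ Cc * r ^ 10 * (2 * M / p) * (4 * L ^ 3) := by
          have h9 : Cc * (r : ℝ) ^ 9 ≤ Cc * r ^ 10 := mul_le_mul_of_nonneg_left h7 (by linarith)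
          exact mul_le_mul (mul_le_mul_of_nonneg_right h9 (by positivity)) h6 (by positivity)
            (by positivity)
      _ = 8 * Cc * r ^ 10 * (L ^ 3 / p) * M := by ring
  · rw [not_le] at hsm
    have h1 : (p : ℝ) ≤ (8 * Cc) * r ^ 10 * L ^ 3 := by
      refine hsm.le.trans ?_
      have h2 : (r : ℝ) ^ 4 ≤ r ^ 10 := pow_le_pow_right₀ hr1 (by norm_num)
      have h3 : 1 + L ≤ 8 * L ^ 3 := by
        have h5 : L ≤ L ^ 3 := le_self_pow₀ hL (by norm_num)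
        linarith
      calc Cc * r ^ 4 * (1 + L) ≤ Cc * r ^ 10 * (8 * L ^ 3) :=
            mul_le_mul (mul_le_mul_of_nonneg_left h2 (by linarith)) h3 (by positivity)
              (by positivity)
        _ = _ := by ring
    exact cbr_small h h1

/-- all cases -/
theorem cbr_all {Ca Cc : ℝ} (hCa : 1 ≤ Ca) (hCc : 1 ≤ Cc)
    (hArr : ∀ (r X₁ X₂ Y k₀ l j V : ℕ) (A B : ℝ), r.Prime → ¬ r ∣ X₁ → ¬ r ∣ X₂ →
      ¬ r ∣ Y → 2 ≤ Y → 1 ≤ k₀ → 1 ≤ l → 1 ≤ j → Nat.Coprime l k₀ → 1 ≤ A → 1 ≤ B →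
      Real.log X₁ ≤ A → Real.log X₂ ≤ A → Real.log Y ≤ B → (k₀ : ℝ) ≤ A * l →
      Ca * r * B * (1 + Real.log l) ≤ l →
      (r : ℤ) ^ V ∣ ((X₁ : ℤ) ^ l) ^ (2 * j) - ((X₂ : ℤ) ^ l * (Y : ℤ) ^ k₀) ^ (2 * j) →
      V * Real.log r ≤ Ca * r ^ 3 * (A * B) * (1 + Real.log l) ^ 2 + Real.log j)
    (hLtr : Stmt_Ltr)
    (hCyc : ∀ (p q r V s z Y : ℕ) (e : ℤ) (κ : ℕ) (A : ℝ), p.Prime → q.Prime → r.Prime →
      3 ≤ p → 3 ≤ q → p ≠ q → (e = 1 ∨ e = -1) → (κ = 1 ∨ κ = q) → 1 ≤ s → 1 ≤ z → 1 ≤ Y →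
      ¬ r ∣ Y → ¬ r ∣ z → ¬ r ∣ s → ¬ (r : ℤ) ∣ (Y : ℤ) - e * (z : ℤ) ^ p →
      (r : ℤ) ^ V ∣ (Y : ℤ) ^ q - (e * (z : ℤ) ^ p) ^ q → 1 ≤ V →
      ((κ : ℤ) * ((Y : ℤ) - e * (z : ℤ) ^ p) = (s : ℤ) ^ p ∨
        (κ : ℤ) * ((Y : ℤ) - e * (z : ℤ) ^ p) = -(s : ℤ) ^ p) →
      1 ≤ A → Real.log s ≤ A → Real.log z ≤ A → Cc * r ^ 4 * (1 + Real.log p) ≤ p →
      V * Real.log r ≤ Cc * r ^ 9 * A * (1 + Real.log p) ^ 2)
    {p q r x y z : ℕ} {e δ : ℤ} {M : ℝ} (h : CbrData p q r x y z e δ M) :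
    p * (padicValNat r x) * Real.log r ≤
      (9 + 8 * Ca + 8 * Cc) * r ^ 10 *
        (Real.log ((max p q : ℕ) : ℝ) ^ 3 / ((max p q : ℕ) : ℝ)) * M := by
  have hM := h.M0
  have hmono : ∀ (c : ℝ) (P : ℕ), c ≤ 9 + 8 * Ca + 8 * Cc → 1 ≤ P →
      c * (r : ℝ) ^ 10 * (Real.log P ^ 3 / P) * M ≤
        (9 + 8 * Ca + 8 * Cc) * (r : ℝ) ^ 10 * (Real.log P ^ 3 / P) * M := by
    intro c P hc hP
    have h1 : 0 ≤ Real.log P := Real.log_natCast_nonneg P
    have h2 : 0 ≤ (r : ℝ) ^ 10 * (Real.log P ^ 3 / P) * M := by positivity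
    calc c * (r : ℝ) ^ 10 * (Real.log P ^ 3 / P) * M
        = c * ((r : ℝ) ^ 10 * (Real.log P ^ 3 / P) * M) := by ring
      _ ≤ (9 + 8 * Ca + 8 * Cc) * ((r : ℝ) ^ 10 * (Real.log P ^ 3 / P) * M) :=
        mul_le_mul_of_nonneg_right hc h2
      _ = _ := by ring
  rcases lt_or_gt_of_ne h.hpq with hlt | hlt
  · rw [max_eq_right hlt.le]
    exact (cbr_big h).trans (hmono 4 q (by linarith) h.hq.one_le)
  · rw [max_eq_left hlt.le]
    obtain ⟨d, F, hd, hF, hd1, hF1, hdF, hcase⟩ :=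
      cbr_fac h.hp.one_le h.hq h.hq3 h.hx h.cop h.hδ h.heq
    by_cases hrD : (r : ℤ) ∣ (y : ℤ) - e * (z : ℤ) ^ p
    · rcases hcase with ⟨hqx, U, v, hU, hv, hxUv⟩ | ⟨U, v, hqU, hU, hv⟩
      · exact (cbr_a hCa hArr h hlt hrD hqx hF hF1 hv).trans
          (hmono (8 * Ca) p (by linarith) h.hp.one_le)
      · exact (cbr_b hLtr h hlt hrD hd hF hd1 hF1 hdF hqU hU hv).trans
          (hmono 9 p (by linarith) h.hp.one_le)
    · rcases hcase with ⟨hqx, U, v, hU, hv, hxUv⟩ | ⟨U, v, hqU, hU, hv⟩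
      · exact (cbr_c hCc hCyc h hlt hrD hd hd1 (Or.inl rfl) (by rw [one_mul]; exact hU)).trans
          (hmono (8 * Cc) p (by linarith) h.hp.one_le)
      · have hqd : q ∣ d := by
          have hp2 := h.hp.two_le
          have h7 : q ^ p ∣ q * d := by rw [hU]; exact pow_dvd_pow_of_dvd hqU p
          have h8 : q * q ∣ q * d := by
            refine dvd_trans ?_ h7
            rw [← sq]
            exact pow_dvd_pow q hp2
          exact Nat.dvd_of_mul_dvd_mul_left h.hq.pos h8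
        exact (cbr_c hCc hCyc h hlt hrD hd hd1 (Or.inr ⟨rfl, hqd⟩) hU).trans
          (hmono (8 * Cc) p (by linarith) h.hp.one_le)

theorem cbr (hArr : Stmt_Arr) (hLtr : Stmt_Ltr) (hCyc : Stmt_Cyc) : Stmt_Cbr := by
  obtain ⟨Ca, hCa, hArr⟩ := hArr
  obtain ⟨Cc, hCc, hCyc⟩ := hCyc
  refine ⟨9 + 8 * Ca + 8 * Cc, by linarith, ?_⟩
  intro p q x y z r M hp hq hpq hq3 hx hy hz hxz hxy hyz hr hrx hcase
  have hodd : Odd q := hq.odd_of_ne_two (by omega)
  have hzpq : z ^ (p * q) = (z ^ p) ^ q := pow_mul z p q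
  have hx2 : 2 ≤ x := by
    have := Nat.le_of_dvd hx hrx
    have := hr.two_le
    omega
  have hx0 : (0 : ℝ) < x := by exact_mod_cast hx
  have hy0 : (0 : ℝ) < y := by exact_mod_cast hy
  have hz0 : (0 : ℝ) < z := by exact_mod_cast hz
  have hxp : 1 ≤ x ^ p := Nat.one_le_pow _ _ hx
  have hyq : 1 ≤ y ^ q := Nat.one_le_pow _ _ hy
  have hzp : 1 ≤ z ^ (p * q) := Nat.one_le_pow _ _ hz
  -- comparison of logarithms
  have hlog : ∀ (a m N : ℕ), 1 ≤ a → a ^ m ≤ N → m * Real.log a ≤ Real.log N := by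
    intro a m N ha hN
    have ha0 : (0 : ℝ) < a := by exact_mod_cast ha
    rw [← Real.log_pow]
    apply Real.log_le_log (by positivity)
    exact_mod_cast hN
  have main : ∀ (N : ℕ) (e δ : ℤ), (e = 1 ∨ e = -1) → (δ = 1 ∨ δ = -1) →
      (y : ℤ) ^ q - (e * (z : ℤ) ^ p) ^ q = δ * (x : ℤ) ^ p → x ^ p ≤ N → y ^ q ≤ N →
      z ^ (p * q) ≤ N → 2 ^ q ≤ N → M = Real.log N →
      p * (padicValNat r x) * Real.log r ≤ (9 + 8 * Ca + 8 * Cc) * r ^ 10 *
        (Real.log ((max p q : ℕ) : ℝ) ^ 3 / ((max p q : ℕ) : ℝ)) * M := by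
    intro N e δ he hδ heq h1 h2 h3 h4 hM
    refine cbr_all hCa hCc hArr hLtr hCyc (e := e) (δ := δ) (y := y) (z := z) ⟨hp, hq, hpq, hq3, hx,
      hy, hz, hxz, hxy, hyz, hr, hrx, he, hδ, heq, ?_, ?_, ?_, ?_⟩
    · rw [hM]; exact hlog x p N hx h1
    · rw [hM]; exact hlog y q N hy h2
    · rw [hM]
      have := hlog z (p * q) N hz h3
      push_cast at this
      exact this
    · rw [hM]
      have := hlog 2 q N (by norm_num) h4
      simpa using this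
  rcases hcase with ⟨h1, h2⟩ | ⟨h1, h2⟩ | ⟨h1, h2⟩
  · refine main (y ^ q) 1 1 (Or.inl rfl) (Or.inl rfl) ?_ (by omega) le_rfl (by omega) ?_ ?_
    · have h3 : (x : ℤ) ^ p + ((z : ℤ) ^ p) ^ q = (y : ℤ) ^ q := by
        rw [← pow_mul]; exact_mod_cast h1
      rw [one_mul, one_mul]; linarith
    · have hy2 : 2 ≤ y := by
        by_contra hc
        have hy1 : y = 1 := by omega
        rw [hy1, one_pow] at h1
        omega
      exact Nat.pow_le_pow_left hy2 q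
    · rw [h2]; push_cast; rfl
  · refine main (x ^ p) (-1) 1 (Or.inr rfl) (Or.inl rfl) ?_ le_rfl (by omega) (by omega) ?_ ?_
    · have h3 : ((z : ℤ) ^ p) ^ q + (y : ℤ) ^ q = (x : ℤ) ^ p := by
        rw [← pow_mul]; exact_mod_cast h1
      rw [neg_one_mul, hodd.neg_pow, one_mul]; linarith
    · by_cases hy2 : 2 ≤ y
      · have := Nat.pow_le_pow_left hy2 q
        omega
      · by_cases hz2 : 2 ≤ z
        · have h5 : 2 ^ q ≤ z ^ (p * q) := by
            rw [hzpq]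
            apply Nat.pow_le_pow_left
            calc 2 = 2 ^ 1 := rfl
              _ ≤ z ^ 1 := Nat.pow_le_pow_left hz2 1
              _ ≤ z ^ p := Nat.pow_le_pow_right hz hp.one_le
          omega
        · exfalso
          have hy1 : y = 1 := by omega
          have hz1 : z = 1 := by omega
          rw [hy1, hz1, one_pow, one_pow] at h1
          have h5 : 2 ^ 2 ≤ x ^ p := by
            calc 2 ^ 2 ≤ 2 ^ p := Nat.pow_le_pow_right (by norm_num) hp.two_le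
              _ ≤ x ^ p := Nat.pow_le_pow_left hx2 p
          omega
    · rw [h2]; push_cast; rfl
  · refine main (z ^ (p * q)) 1 (-1) (Or.inl rfl) (Or.inr rfl) ?_ (by omega) (by omega) le_rfl ?_ ?_
    · have h3 : (y : ℤ) ^ q + (x : ℤ) ^ p = ((z : ℤ) ^ p) ^ q := by
        rw [← pow_mul]; exact_mod_cast h1
      rw [one_mul, neg_one_mul]; linarith
    · have hz2 : 2 ≤ z := by
        by_contra hc
        have hz1 : z = 1 := by omega
        rw [hz1, one_pow] at h1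
        omega
      rw [hzpq]
      apply Nat.pow_le_pow_left
      calc 2 = 2 ^ 1 := rfl
        _ ≤ z ^ 1 := Nat.pow_le_pow_left hz2 1
        _ ≤ z ^ p := Nat.pow_le_pow_right hz hp.one_le
    · rw [h2]; push_cast; rfl

end Pool.Agent.Work.MP_2738db_nt_Y.helper17
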