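import Pool.Agent.Work.MP_2738db_nt_Y.Interface4

/-!
Block GAU: two logarithms over `ℚ(i)` at a prime.
-/

set_option autoImplicit false

namespace Pool.Agent.Work.MP_2738db_nt_Y.helper17

open Finset NumberField
open Pool.Agent.Work.MP_2738db_nt_A (HB)
open Pool.Agent.Work.MP_2738db_nt_Y

/-! ### Sizes at the infinite places -/

theorem gau_place_i {K : Type} [Field K] [NumberField K] (φ : GaussianInt →+* 𝓞 K)
    (w : InfinitePlace K) : w ((φ ⟨0, 1⟩ : 𝓞 K) : K) = 1 := by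
  have h1 : (⟨0, 1⟩ : GaussianInt) ^ 4 = 1 := by
    have h : (⟨0, 1⟩ : GaussianInt) * ⟨0, 1⟩ = -1 := by
      ext <;> simp [Zsqrtd.re_mul, Zsqrtd.im_mul]
    have h' : (⟨0, 1⟩ : GaussianInt) ^ 4 = (⟨0, 1⟩ * ⟨0, 1⟩) * (⟨0, 1⟩ * ⟨0, 1⟩) := by ring
    rw [h', h]; ring
  have h2 : (φ ⟨0, 1⟩) ^ 4 = 1 := by
    rw [← map_pow, h1, map_one]
  have h3 : ((φ ⟨0, 1⟩ : 𝓞 K) : K) ^ 4 = 1 := by
    have := congrArg (fun x : 𝓞 K => (x : K)) h2
    simpa using this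
  have h4 : w ((φ ⟨0, 1⟩ : 𝓞 K) : K) ^ 4 = 1 := by
    rw [← map_pow, h3, map_one]
  have h5 : 0 ≤ w ((φ ⟨0, 1⟩ : 𝓞 K) : K) := apply_nonneg _ _
  exact (pow_eq_one_iff_of_nonneg h5 (by norm_num)).1 h4

theorem gau_decomp (a b : ℤ) : (⟨a, b⟩ : GaussianInt) = (a : GaussianInt) + b * ⟨0, 1⟩ := by
  ext <;> simp

theorem place_int {K : Type} [Field K] [NumberField K] (w : InfinitePlace K) (a : ℤ) :
    w ((a : 𝓞 K) : K) = |(a : ℝ)| := by
  have h : ((a : 𝓞 K) : K) = (a : K) := by simp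
  rw [h, ← InfinitePlace.norm_embedding_eq, map_intCast, Complex.norm_intCast]

theorem place_nat {K : Type} [Field K] [NumberField K] (w : InfinitePlace K) (a : ℕ) :
    w ((a : 𝓞 K) : K) = (a : ℝ) := by
  have h := place_int w (a : ℤ)
  simpa only [Int.cast_natCast, Nat.abs_cast] using h

theorem place_add_le {K : Type} [Field K] [NumberField K] (w : InfinitePlace K) (x y : K) :
    w (x + y) ≤ w x + w y := by
  rw [← InfinitePlace.norm_embedding_eq, ← InfinitePlace.norm_embedding_eq,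
    ← InfinitePlace.norm_embedding_eq, map_add]
  exact norm_add_le _ _

theorem int_abs_le_sq (n : ℤ) : |(n : ℝ)| ≤ (n : ℝ) ^ 2 := by
  rcases eq_or_ne n 0 with h | h
  · simp [h]
  · have h1 : (1 : ℝ) ≤ |(n : ℝ)| := by
      have := Int.one_le_abs h
      exact_mod_cast this
    rw [← sq_abs]
    nlinarith

/-- the size of a Gaussian integer -/
theorem gau_place_le {K : Type} [Field K] [NumberField K] (φ : GaussianInt →+* 𝓞 K)
    (w : InfinitePlace K) (a b : ℤ) :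
    w ((φ ⟨a, b⟩ : 𝓞 K) : K) ≤ (a : ℝ) ^ 2 + (b : ℝ) ^ 2 := by
  rw [gau_decomp, map_add, map_mul, map_intCast, map_intCast]
  have h1 : w (((a : 𝓞 K) + (b : 𝓞 K) * φ ⟨0, 1⟩ : 𝓞 K) : K) ≤ |(a : ℝ)| + |(b : ℝ)| := by
    have h2 : (((a : 𝓞 K) + (b : 𝓞 K) * φ ⟨0, 1⟩ : 𝓞 K) : K) =
        ((a : 𝓞 K) : K) + ((b : 𝓞 K) : K) * ((φ ⟨0, 1⟩ : 𝓞 K) : K) := by
      simp
    rw [h2]
    refine (place_add_le w _ _).trans ?_
    rw [map_mul, gau_place_i, place_int, place_int, mul_one]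
  linarith [int_abs_le_sq a, int_abs_le_sq b]

/-! ### The field and the prime -/

/-- the Gaussian integers in the ring of integers of `ℚ(i)` -/
theorem gau_field : ∃ (K : Type) (_ : Field K) (_ : NumberField K) (_ : GaussianInt →+* 𝓞 K),
    Module.finrank ℚ K = 2 := by
  have hne : NeZero ((4 : ℕ) : ℚ) := ⟨by norm_num⟩
  have hcyc : IsCyclotomicExtension {4} ℚ (CyclotomicField 4 ℚ) :=
    CyclotomicField.isCyclotomicExtension 4 ℚ
  have hprim := IsCyclotomicExtension.zeta_spec 4 ℚ (CyclotomicField 4 ℚ)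
  set i : 𝓞 (CyclotomicField 4 ℚ) := hprim.toInteger with hi
  have hi' : IsPrimitiveRoot i 4 := hprim.toInteger_isPrimitiveRoot
  have hsq : i * i = ((-1 : ℤ) : 𝓞 (CyclotomicField 4 ℚ)) := by
    have h4 : i ^ 4 = 1 := hi'.pow_eq_one
    have h2 : i ^ 2 ≠ 1 := by
      intro h
      have := hi'.dvd_of_pow_eq_one 2 h
      omega
    have h3 : (i ^ 2 - 1) * (i ^ 2 + 1) = 0 := by
      have : (i ^ 2 - 1) * (i ^ 2 + 1) = i ^ 4 - 1 := by ring
      rw [this, h4, sub_self]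
    rcases mul_eq_zero.1 h3 with h | h
    · exact absurd (sub_eq_zero.1 h) h2
    · push_cast
      linear_combination h
  refine ⟨CyclotomicField 4 ℚ, inferInstance, inferInstance, Zsqrtd.lift ⟨i, hsq⟩, ?_⟩
  rw [IsCyclotomicExtension.Rat.finrank 4]
  rfl

theorem gau_neg_norm (a b : ℤ) :
    (⟨a, b⟩ : GaussianInt) * ⟨a, -b⟩ = ((a ^ 2 + b ^ 2 : ℤ) : GaussianInt) := by
  apply Zsqrtd.ext
  · rw [Zsqrtd.re_intCast, Zsqrtd.re_mul]; ring
  · rw [Zsqrtd.im_intCast, Zsqrtd.im_mul]; ring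

theorem absNorm_le_pow {K : Type} [Field K] [NumberField K] (P : Ideal (𝓞 K)) (r : ℕ)
    (hr : 1 ≤ r) (hrP : (r : 𝓞 K) ∈ P) :
    P ≠ ⊥ ∧ (Ideal.absNorm P : ℝ) ≤ (r : ℝ) ^ (Module.finrank ℚ K) := by
  have hr0 : (r : 𝓞 K) ≠ 0 := by
    have : r ≠ 0 := by omega
    exact_mod_cast this
  have hne : P ≠ ⊥ := by
    intro h
    rw [h] at hrP
    exact hr0 (by simpa using hrP)
  refine ⟨hne, ?_⟩
  have h1 : Ideal.span {(r : 𝓞 K)} ≤ P := by
    rw [Ideal.span_singleton_le_iff_mem]; exact hrP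
  have h2 := Ideal.absNorm_dvd_absNorm_of_le h1
  have h3 : Ideal.absNorm (Ideal.span {(r : 𝓞 K)}) = r ^ (Module.finrank ℚ K) := by
    rw [Ideal.absNorm_span_natCast]
    rw [NumberField.RingOfIntegers.rank]
  rw [h3] at h2
  have h4 := Nat.le_of_dvd (by positivity) h2
  exact_mod_cast h4

/-- a prime above `r` containing the first of two conjugate elements -/
theorem gau_prime (u v : ℤ) (r V : ℕ) (hr : r.Prime) (huv : IsCoprime u v)
    (hodd : Odd (u ^ 2 + v ^ 2)) (hrd : (r : ℤ) ∣ u ^ 2 + v ^ 2) (hrV : (r : ℤ) ^ V ∣ u ^ 2 + v ^ 2) :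
    ∃ (K : Type) (_ : Field K) (_ : NumberField K) (φ : GaussianInt →+* 𝓞 K) (P : Ideal (𝓞 K)),
      Module.finrank ℚ K = 2 ∧ P.IsPrime ∧ (r : 𝓞 K) ∈ P ∧ φ ⟨u, v⟩ ∈ P ^ V ∧ φ ⟨u, -v⟩ ∉ P ∧
      (2 : 𝓞 K) ∉ P := by
  obtain ⟨K, iF, iN, φ, hK⟩ := gau_field
  have hr2 : ¬ (2 : ℤ) ∣ r := by
    intro h
    have h2 : (2 : ℤ) ∣ u ^ 2 + v ^ 2 := h.trans hrd
    rcases hodd with ⟨t, ht⟩
    omega
  -- the prime
  have hspan : Ideal.span {(r : 𝓞 K)} ≠ ⊤ := by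
    rw [Ne, Ideal.span_singleton_eq_top]
    intro hu
    have h1 : Ideal.absNorm (Ideal.span {(r : 𝓞 K)}) = 1 := by
      rw [Ideal.absNorm_eq_one_iff]
      exact Ideal.span_singleton_eq_top.2 hu
    rw [Ideal.absNorm_span_natCast, NumberField.RingOfIntegers.rank, hK] at h1
    have := hr.two_le
    nlinarith
  obtain ⟨P, hPmax, hPle⟩ := Ideal.exists_le_maximal _ hspan
  have hP : P.IsPrime := hPmax.isPrime
  have hrP : (r : 𝓞 K) ∈ P := hPle (Ideal.mem_span_singleton_self _)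
  have hcop : ∀ m : ℤ, IsCoprime (r : ℤ) m → (m : 𝓞 K) ∉ P := by
    intro m hm hmem
    obtain ⟨a, b, hab⟩ := hm
    apply hP.ne_top
    rw [Ideal.eq_top_iff_one]
    have h1 : (1 : 𝓞 K) = (a : 𝓞 K) * (r : 𝓞 K) + (b : 𝓞 K) * (m : 𝓞 K) := by
      have := congrArg (fun t : ℤ => (t : 𝓞 K)) hab
      push_cast at this
      exact this.symm
    rw [h1]
    exact P.add_mem (P.mul_mem_left _ hrP) (P.mul_mem_left _ hmem)
  have h2P : (2 : 𝓞 K) ∉ P := by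
    have h := hcop 2 (by
      have hp : Prime (r : ℤ) := Nat.prime_iff_prime_int.1 hr
      refine Int.isCoprime_iff_gcd_eq_one.2 ?_
      · have h2 : Int.gcd (r : ℤ) 2 ∣ 2 := by
          have := Int.gcd_dvd_right (r : ℤ) 2
          exact_mod_cast this
        rcases (Nat.dvd_prime Nat.prime_two).1 h2 with h | h
        · exact h
        · exfalso
          apply hr2
          have := Int.gcd_dvd_left (r : ℤ) 2
          rw [h] at this
          exact_mod_cast this)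
    simpa using h
  -- statement for a hom with the right condition
  have key : ∀ ψ : GaussianInt →+* 𝓞 K, ψ ⟨u, v⟩ ∈ P → ψ ⟨u, v⟩ ∈ P ^ V ∧ ψ ⟨u, -v⟩ ∉ P := by
    intro ψ hψ
    have hnot : ψ ⟨u, -v⟩ ∉ P := by
      intro hψ'
      obtain ⟨a, b, hab⟩ := huv
      have h1 : ψ ⟨u, v⟩ + ψ ⟨u, -v⟩ ∈ P := P.add_mem hψ hψ'
      have h2 : ψ ⟨u, v⟩ - ψ ⟨u, -v⟩ ∈ P := P.sub_mem hψ hψ'
      have e1 : ψ ⟨u, v⟩ + ψ ⟨u, -v⟩ = 2 * (u : 𝓞 K) := by
        rw [← map_add]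
        have : (⟨u, v⟩ : GaussianInt) + ⟨u, -v⟩ = 2 * (u : GaussianInt) := by
          ext <;> simp <;> ring
        rw [this, map_mul, map_ofNat, map_intCast]
      have e2 : (ψ ⟨u, v⟩ - ψ ⟨u, -v⟩) * (- ψ ⟨0, 1⟩) = 2 * (v : 𝓞 K) := by
        rw [← map_sub, ← map_neg, ← map_mul]
        have : ((⟨u, v⟩ : GaussianInt) - ⟨u, -v⟩) * (-⟨0, 1⟩) = 2 * (v : GaussianInt) := by
          ext <;> simp <;> ring
        rw [this, map_mul, map_ofNat, map_intCast]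
      have h3 : 2 * (u : 𝓞 K) ∈ P := e1 ▸ h1
      have h4 : 2 * (v : 𝓞 K) ∈ P := e2 ▸ P.mul_mem_right _ h2
      apply h2P
      have e3 : (2 : 𝓞 K) = (a : 𝓞 K) * (2 * (u : 𝓞 K)) + (b : 𝓞 K) * (2 * (v : 𝓞 K)) := by
        have := congrArg (fun t : ℤ => (t : 𝓞 K)) hab
        push_cast at this
        linear_combination (-2) * this
      rw [e3]
      exact P.add_mem (P.mul_mem_left _ h3) (P.mul_mem_left _ h4)
    refine ⟨?_, hnot⟩
    have hmul : ψ ⟨u, v⟩ * ψ ⟨u, -v⟩ ∈ P ^ V := by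
      rw [← map_mul, gau_neg_norm, map_intCast]
      obtain ⟨w, hw⟩ := hrV
      rw [hw]
      push_cast
      exact Ideal.mul_mem_right _ _ (Ideal.pow_mem_pow hrP V)
    rcases Ideal.IsPrime.mem_pow_mul P hmul with h | h
    · exact h
    · exact absurd h hnot
  have hprod : φ ⟨u, v⟩ * φ ⟨u, -v⟩ ∈ P := by
    rw [← map_mul, gau_neg_norm, map_intCast]
    obtain ⟨w, hw⟩ := hrd
    rw [hw]
    push_cast
    exact Ideal.mul_mem_right _ _ hrP
  rcases hP.mem_or_mem hprod with h | h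
  · exact ⟨K, iF, iN, φ, P, hK, hP, hrP, (key φ h).1, (key φ h).2, h2P⟩
  · let ψ : GaussianInt →+* 𝓞 K := φ.comp (starRingEnd GaussianInt)
    have hψ : ψ ⟨u, v⟩ ∈ P := h
    exact ⟨K, iF, iN, ψ, P, hK, hP, hrP, (key ψ hψ).1, (key ψ hψ).2, h2P⟩

/-- conjugation of the equation -/
theorem gau_conj (g : GaussianInt) (u v y w : ℤ) (p : ℕ)
    (h : g * (⟨u, v⟩ : GaussianInt) ^ p = ⟨y, w⟩) :
    star g * (⟨u, -v⟩ : GaussianInt) ^ p = ⟨y, -w⟩ := by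
  have h1 := congrArg star h
  rw [star_mul', star_pow] at h1
  exact h1

theorem gau_unit_norm (g : GaussianInt) (hg : IsUnit g) : g.re ^ 2 + g.im ^ 2 = 1 := by
  have h1 := Zsqrtd.norm_eq_one_iff.2 hg
  rw [Zsqrtd.norm_def] at h1
  have h2 : g.re * g.re - (-1) * g.im * g.im = g.re ^ 2 + g.im ^ 2 := by ring
  rw [h2] at h1
  have h3 : 0 ≤ g.re ^ 2 + g.im ^ 2 := by positivity
  omega

theorem gau (hT : Stmt_Tln) : Stmt_Gau := by
  refine ⟨10 ^ 10, by norm_num, ?_⟩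
  intro p r V z y u v g A hp hr hp3 hg huv hodd hrd hrV hrz hz heq hA hNA hzA hbig
  obtain ⟨K, iF, iN, φ, P, hK, hP, hrP, hα, hα', h2P⟩ := gau_prime u v r V hr huv hodd hrd hrV
  have hr1 : 1 ≤ r := hr.one_le
  obtain ⟨hPne, hPn⟩ := absNorm_le_pow P r hr1 hrP
  rw [hK] at hPn
  -- the elements
  have hzP : ((z : ℕ) : 𝓞 K) ∉ P := by
    intro hmem
    have hc : IsCoprime (r : ℤ) (z : ℤ) := by
      rw [Nat.isCoprime_iff_coprime]
      exact (Nat.Prime.coprime_iff_not_dvd hr).2 hrz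
    obtain ⟨a, b, hab⟩ := hc
    apply hP.ne_top
    rw [Ideal.eq_top_iff_one]
    have h1 : (1 : 𝓞 K) = (a : 𝓞 K) * (r : 𝓞 K) + (b : 𝓞 K) * (z : 𝓞 K) := by
      have := congrArg (fun t : ℤ => (t : 𝓞 K)) hab
      push_cast at this
      exact this.symm
    rw [h1]
    exact P.add_mem (P.mul_mem_left _ hrP) (P.mul_mem_left _ hmem)
  have hiu : IsUnit (φ ⟨0, 1⟩) := by
    have h : (⟨0, 1⟩ : GaussianInt) * -⟨0, 1⟩ = 1 := by
      ext <;> simp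
    have h2 : φ ⟨0, 1⟩ * φ (-⟨0, 1⟩) = 1 := by rw [← map_mul, h, map_one]
    exact IsUnit.of_mul_eq_one _ h2
  have hx₁P : 2 * φ ⟨0, 1⟩ ∉ P := by
    intro h
    rcases hP.mem_or_mem h with h | h
    · exact h2P h
    · exact hP.ne_top (Ideal.eq_top_of_isUnit_mem _ h hiu)
  have hsg : IsUnit (star g) := hg.star
  have hx₂u : IsUnit (-φ (star g)) := (hsg.map φ).neg
  have hx₂P : -φ (star g) ∉ P := fun h => hP.ne_top (Ideal.eq_top_of_isUnit_mem _ h hx₂u)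
  have hHi : ∀ w : InfinitePlace K, w ((2 * φ ⟨0, 1⟩ : 𝓞 K) : K) = 2 := by
    intro w
    have h : ((2 * φ ⟨0, 1⟩ : 𝓞 K) : K) = (((2 : ℕ) : 𝓞 K) : K) * ((φ ⟨0, 1⟩ : 𝓞 K) : K) := by
      simp
    rw [h, map_mul, gau_place_i, place_nat]
    norm_num
  have hHg : ∀ w : InfinitePlace K, w ((-φ (star g) : 𝓞 K) : K) ≤ 1 := by
    intro w
    have h1 : -φ (star g) = φ ⟨-g.re, g.im⟩ := by
      rw [← map_neg]
      apply congrArg
      apply Zsqrtd.ext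
      · simp
      · simp
    rw [h1]
    refine (gau_place_le φ w _ _).trans ?_
    have h2 := gau_unit_norm g hg
    have h3 : ((-g.re : ℤ) : ℝ) ^ 2 + ((g.im : ℤ) : ℝ) ^ 2 = 1 := by
      have h4 : (-g.re) ^ 2 + g.im ^ 2 = 1 := by linarith [neg_sq g.re]
      exact_mod_cast h4
    rw [h3]
  have he : (2 : ℝ) ≤ Real.exp 1 := by
    have := Real.add_one_le_exp (1 : ℝ)
    linarith
  have hne : ∀ j : ℕ, 1 ≤ j → (2 * φ ⟨0, 1⟩) ^ j ≠ (-φ (star g)) ^ j := by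
    intro j hj h
    obtain ⟨w⟩ : Nonempty (InfinitePlace K) := inferInstance
    have h1 : w (((2 * φ ⟨0, 1⟩) ^ j : 𝓞 K) : K) = w (((-φ (star g)) ^ j : 𝓞 K) : K) := by rw [h]
    have h2 : (((2 * φ ⟨0, 1⟩) ^ j : 𝓞 K) : K) = ((2 * φ ⟨0, 1⟩ : 𝓞 K) : K) ^ j := by
      simp only [map_pow]
    have h3 : (((-φ (star g)) ^ j : 𝓞 K) : K) = ((-φ (star g) : 𝓞 K) : K) ^ j := by
      simp only [map_pow]
    rw [h2, h3, map_pow, map_pow, hHi] at h1
    have h4 : w ((-φ (star g) : 𝓞 K) : K) ^ j ≤ 1 := pow_le_one₀ (apply_nonneg _ _) (hHg w)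
    have h5 : (2 : ℝ) ^ 1 ≤ 2 ^ j := pow_le_pow_right₀ (by norm_num) hj
    linarith
  -- the congruence
  have hcong : 2 * φ ⟨0, 1⟩ * ((z : ℕ) : 𝓞 K) ^ p - -φ (star g) * φ ⟨u, -v⟩ ^ p ∈ P ^ (V * p) := by
    have hc := gau_conj g u v y ((z : ℤ) ^ p) p heq
    have h1 : 2 * φ ⟨0, 1⟩ * ((z : ℕ) : 𝓞 K) ^ p - -φ (star g) * φ ⟨u, -v⟩ ^ p =
        φ g * φ ⟨u, v⟩ ^ p := by
      rw [← map_pow, ← map_pow, neg_mul, ← map_mul, ← map_mul, hc, heq, gau_decomp y,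
        gau_decomp y, map_add, map_add, map_mul, map_mul, map_intCast, map_intCast, map_intCast]
      push_cast
      ring
    rw [h1, pow_mul]
    exact Ideal.mul_mem_left _ _ (Ideal.pow_mem_pow hα p)
  have hr2 : (2 : ℝ) ≤ r := by exact_mod_cast hr.two_le
  have hlp : 0 ≤ Real.log p := Real.log_natCast_nonneg p
  have hu2 : (0 : ℝ) < (u : ℝ) ^ 2 + (v : ℝ) ^ 2 := by
    have h1 : 0 < u ^ 2 + v ^ 2 := by
      have h2 : 0 ≤ u ^ 2 + v ^ 2 := by positivity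
      rcases hodd with ⟨t, ht⟩
      omega
    exact_mod_cast h1
  have hmain := hT K P (2 * φ ⟨0, 1⟩) (-φ (star g)) ((z : ℕ) : 𝓞 K) (φ ⟨u, -v⟩) p (V * p) A 1 2
    ((r : ℝ) ^ 2) hP hPne hx₁P hx₂P hzP hα' hne hcong (by norm_num) (by rw [hK]; norm_num) hPn hA
    le_rfl ?_ ?_ ?_ ?_ ?_
  · have hlog : Real.log r ≤ r := (Real.log_le_sub_one_of_pos (by linarith)).trans (by linarith)
    have hlog0 : 0 ≤ Real.log r := Real.log_natCast_nonneg r
    push_cast at hmain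
    have h1 : (p : ℝ) * V * Real.log r ≤
        (10 ^ 8 * 2 ^ 4 * (r ^ 2) ^ 2 * A * 1 * (1 + Real.log p) ^ 2) * r := by
      have h2 : (p : ℝ) * V = V * p := by ring
      rw [h2]
      exact mul_le_mul hmain hlog hlog0 (by positivity)
    refine h1.trans ?_
    have h3 : (r : ℝ) ^ 5 ≤ r ^ 6 := pow_le_pow_right₀ (by linarith) (by norm_num)
    have h4 : (0 : ℝ) ≤ A * (1 + Real.log p) ^ 2 := by positivity
    have h5 : (10 ^ 8 * 2 ^ 4 * ((r : ℝ) ^ 2) ^ 2 * A * 1 * (1 + Real.log p) ^ 2) * r =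
        (10 ^ 8 * 2 ^ 4) * (r ^ 5 * (A * (1 + Real.log p) ^ 2)) := by ring
    have h6 : 10 ^ 10 * (r : ℝ) ^ 6 * A * (1 + Real.log p) ^ 2 =
        10 ^ 10 * (r ^ 6 * (A * (1 + Real.log p) ^ 2)) := by ring
    rw [h5, h6]
    have h7 : (r : ℝ) ^ 5 * (A * (1 + Real.log p) ^ 2) ≤ r ^ 6 * (A * (1 + Real.log p) ^ 2) :=
      mul_le_mul_of_nonneg_right h3 h4
    have h8 : (0 : ℝ) ≤ r ^ 6 * (A * (1 + Real.log p) ^ 2) := by positivity
    nlinarith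
  · intro w
    rw [place_nat]
    have hz' : (0 : ℝ) < z := by exact_mod_cast hz
    exact (Real.log_le_iff_le_exp hz').1 hzA
  · intro w
    refine (gau_place_le φ w _ _).trans ?_
    have h1 : (u : ℝ) ^ 2 + ((-v : ℤ) : ℝ) ^ 2 = (u : ℝ) ^ 2 + (v : ℝ) ^ 2 := by push_cast; ring
    rw [h1]
    exact (Real.log_le_iff_le_exp hu2).1 hNA
  · intro w
    rw [hHi]; exact he
  · intro w
    exact (hHg w).trans (by linarith)
  · have h1 : (0 : ℝ) ≤ r ^ 2 * (1 + Real.log p) := by positivity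
    have h2 : (10 : ℝ) ^ 4 * 2 ^ 2 * r ^ 2 * 1 * (1 + Real.log p) =
        (10 ^ 4 * 2 ^ 2) * (r ^ 2 * (1 + Real.log p)) := by ring
    have h3 : (10 : ℝ) ^ 10 * r ^ 2 * (1 + Real.log p) = 10 ^ 10 * (r ^ 2 * (1 + Real.log p)) := by
      ring
    rw [h3] at hbig
    rw [h2]
    nlinarith

end Pool.Agent.Work.MP_2738db_nt_Y.helper17
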