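import Mathlib
import Pool.Agent.Work.MP_2738db_nt_W.Zero
import Pool.Agent.Work.MP_2738db_nt_Y.Interface

/-!
Block ZE of Theorem Y (MP_2738db_nt): the zero estimate for the interpolation matrix,
from the zero estimate in the plane (ZPL) and the values of linear forms (VAL).
-/

set_option autoImplicit false

namespace Pool.Agent.Work.MP_2738db_nt_Y.helper17

open Finset Polynomial
open Pool.Agent.Work.MP_2738db_nt_W (bp bp_eval bp_natDegree)

/-- evaluation at a point as a ring homomorphism -/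
noncomputable def zeE (x y : ℚ) : ℚ[X][X] →+* ℚ := (evalRingHom y).comp (evalRingHom (C x))

lemma zeE_apply (x y : ℚ) (P : ℚ[X][X]) : zeE x y P = ev x y P := rfl

/-- inner degree at most `D` -/
def zeI (D : ℕ) (P : ℚ[X][X]) : Prop := ∀ i, (P.coeff i).natDegree ≤ D

lemma zeI_mul {D D' : ℕ} {P Q : ℚ[X][X]} (h : zeI D P) (h' : zeI D' Q) :
    zeI (D + D') (P * Q) := by
  intro i
  rw [coeff_mul]
  apply natDegree_sum_le_of_forall_le
  intro x _
  exact natDegree_mul_le.trans (add_le_add (h _) (h' _))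

lemma zeI_mono {D D' : ℕ} {P : ℚ[X][X]} (h : zeI D P) (hD : D ≤ D') : zeI D' P :=
  fun i => (h i).trans hD

lemma zeI_sum {ι : Type*} (s : Finset ι) (f : ι → ℚ[X][X]) (D : ℕ) (h : ∀ i ∈ s, zeI D (f i)) :
    zeI D (∑ i ∈ s, f i) := by
  intro i
  rw [finsetSum_coeff]
  apply natDegree_sum_le_of_forall_le
  intro j hj
  exact h j hj i

lemma zeI_map (f : ℚ[X]) : zeI 0 (f.map C) := by
  intro i
  rw [coeff_map, natDegree_C]

lemma zeI_C (f : ℚ[X]) (D : ℕ) (h : f.natDegree ≤ D) : zeI D (C f) := by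
  intro i
  rw [coeff_C]
  split_ifs
  · exact h
  · simp

lemma zeI_prod {ι : Type*} (s : Finset ι) (f : ι → ℚ[X][X]) (D : ℕ) (h : ∀ i ∈ s, zeI D (f i)) :
    zeI (s.card * D) (∏ i ∈ s, f i) := by
  classical
  induction s using Finset.induction_on with
  | empty =>
    rw [prod_empty, ← C_1]
    exact zeI_C _ _ (by simp)
  | insert a s ha ih =>
    rw [Finset.prod_insert ha, Finset.card_insert_of_notMem ha]
    exact zeI_mono (zeI_mul (h a (mem_insert_self a s))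
      (ih (fun i hi => h i (mem_insert_of_mem hi)))) (by ring_nf; omega)

lemma zeI_comp {D : ℕ} {P : ℚ[X][X]} (a : ℚ) (h : zeI D P) : zeI D (P.comp (X + C (C a))) := by
  rw [comp_eq_sum_left, Polynomial.sum_def]
  apply zeI_sum
  intro i _
  have h1 : (X + C (C a) : ℚ[X][X]) = (X + C a : ℚ[X]).map C := by simp
  rw [h1, ← Polynomial.map_pow]
  exact zeI_mul (zeI_C _ D (h i)) (zeI_map _)

lemma ze_coeff_prod_deg {ι : Type*} (s : Finset ι) (f : ι → ℚ[X][X]) (d : ι → ℕ)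
    (h : ∀ i ∈ s, (f i).natDegree ≤ d i) :
    (∏ i ∈ s, f i).coeff (∑ i ∈ s, d i) = ∏ i ∈ s, (f i).coeff (d i) ∧
      (∏ i ∈ s, f i).natDegree ≤ ∑ i ∈ s, d i := by
  classical
  induction s using Finset.induction_on with
  | empty => simp
  | insert a s ha ih =>
    obtain ⟨h1, h2⟩ := ih (fun i hi => h i (mem_insert_of_mem hi))
    rw [Finset.prod_insert ha, Finset.sum_insert ha, Finset.prod_insert ha]
    have h3 := h a (mem_insert_self a s)
    refine ⟨?_, ?_⟩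
    · rw [Polynomial.coeff_mul_add_eq_of_natDegree_le h3 h2, h1]
    · exact (Polynomial.natDegree_mul_le).trans (by omega)

/-- the interpolation determinant as a polynomial in two variables -/
lemma ze_core {n : ℕ} (hn : 0 < n) (lam : Fin n → ℕ) (hlam : Function.Injective lam)
    (P : Fin n → ℚ[X][X]) (hP : ∀ j, P j ≠ 0) (K : ℕ) (hK : ∀ j, BiDeg K (P j))
    (y : ℚ) (hy : 1 < y) (ℓ : ℕ) :
    ∃ Δ : ℚ[X][X], Δ ≠ 0 ∧ BiDeg (K * n) Δ ∧ ∀ a b η : ℚ, η ≠ 0 →
      (∀ s : Fin n, ∑ j, ev (a + (s : ℕ) * ℓ) b (P j) * (η * y ^ (s : ℕ)) ^ lam j = 0) →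
      ev a b Δ = 0 := by
  classical
  let E : Matrix (Fin n) (Fin n) ℚ[X][X] :=
    Matrix.of fun s j => (P j).comp (X + C (C (((s : ℕ) : ℚ) * ℓ))) *
      C (C ((y ^ (s : ℕ)) ^ lam j))
  let d : Fin n → ℕ := fun j => (P j).natDegree
  have hEdeg : ∀ s j, (E s j).natDegree ≤ d j := by
    intro s j
    simp only [E, Matrix.of_apply]
    refine (Polynomial.natDegree_mul_C_le _ _).trans ?_
    rw [Polynomial.natDegree_comp]
    rw [Polynomial.natDegree_X_add_C, mul_one]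
  have hEI : ∀ s j, zeI K (E s j) := by
    intro s j
    have h1 := zeI_mul (zeI_comp (((s : ℕ) : ℚ) * ℓ) (hK j).2)
      (zeI_C (C ((y ^ (s : ℕ)) ^ lam j)) 0 (by rw [natDegree_C]))
    exact h1
  have hEcoeff : ∀ s j, (E s j).coeff (d j) = (P j).leadingCoeff * (C (y ^ lam j)) ^ (s : ℕ) := by
    intro s j
    simp only [E, Matrix.of_apply, Polynomial.coeff_mul_C]
    have h1 : ((P j).comp (X + C (C (((s : ℕ) : ℚ) * ℓ)))).coeff (d j) = (P j).leadingCoeff := by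
      have h2 : ((P j).comp (X + C (C (((s : ℕ) : ℚ) * ℓ)))).natDegree = d j := by
        rw [Polynomial.natDegree_comp, Polynomial.natDegree_X_add_C, mul_one]
      have h3 : ((P j).comp (X + C (C (((s : ℕ) : ℚ) * ℓ)))).leadingCoeff =
          (P j).leadingCoeff := by
        rw [Polynomial.leadingCoeff_comp (by rw [Polynomial.natDegree_X_add_C]; exact one_ne_zero)]
        rw [Polynomial.leadingCoeff_X_add_C, one_pow, mul_one]
      rw [← h3, Polynomial.leadingCoeff, h2]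
    rw [h1, ← C_pow, ← pow_mul, ← pow_mul, mul_comm (lam j)]
  -- the determinant is a nonzero polynomial
  have hcoef : (E.det).coeff (∑ j, d j) = (∏ j, (P j).leadingCoeff) *
      (Matrix.vandermonde fun j => (C (y ^ lam j) : ℚ[X])).det := by
    rw [← Matrix.det_transpose (Matrix.vandermonde fun j => (C (y ^ lam j) : ℚ[X]))]
    rw [Matrix.det_apply', Matrix.det_apply' , Polynomial.finsetSum_coeff, Finset.mul_sum]
    apply Finset.sum_congr rfl
    intro σ _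
    have h1 := (ze_coeff_prod_deg univ (fun j => E (σ j) j) d (fun j _ => hEdeg (σ j) j)).1
    have h2 : (((Equiv.Perm.sign σ : ℤ) : ℚ[X][X]) * ∏ i, E (σ i) i).coeff (∑ j, d j)
        = ((Equiv.Perm.sign σ : ℤ) : ℚ[X]) * (∏ i, E (σ i) i).coeff (∑ j, d j) := by
      rw [← Polynomial.C_eq_intCast, Polynomial.coeff_C_mul]
    rw [h2, h1]
    simp only [hEcoeff, Finset.prod_mul_distrib, Matrix.transpose_apply, Matrix.vandermonde_apply]
    ring
  have hne : E.det ≠ 0 := by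
    intro h0
    rw [h0, Polynomial.coeff_zero] at hcoef
    have h1 : (∏ j, (P j).leadingCoeff) ≠ 0 :=
      Finset.prod_ne_zero_iff.mpr fun j _ => Polynomial.leadingCoeff_ne_zero.mpr (hP j)
    have h2 : (Matrix.vandermonde fun j => (C (y ^ lam j) : ℚ[X])).det ≠ 0 := by
      rw [Matrix.det_vandermonde_ne_zero_iff]
      intro i j hij
      apply hlam
      exact pow_right_injective₀ (by linarith) (ne_of_gt hy) (C_injective hij)
    exact (mul_ne_zero h1 h2) hcoef.symm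
  refine ⟨E.det, hne, ⟨?_, ?_⟩, ?_⟩
  · rw [Matrix.det_apply']
    apply (Polynomial.natDegree_sum_le_of_forall_le _ _ _)
    intro σ _
    have h1 := (ze_coeff_prod_deg univ (fun j => E (σ j) j) d (fun j _ => hEdeg (σ j) j)).2
    refine (Polynomial.natDegree_mul_le).trans ?_
    rw [Polynomial.natDegree_intCast, zero_add]
    refine h1.trans ?_
    calc ∑ j, d j ≤ ∑ _j : Fin n, K := Finset.sum_le_sum fun j _ => (hK j).1
      _ = K * n := by simp [mul_comm]
  · have h0 : zeI (K * n) E.det := by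
      rw [Matrix.det_apply']
      apply zeI_sum
      intro σ _
      have h1 := zeI_prod univ (fun j => E (σ j) j) K (fun j _ => hEI (σ j) j)
      have h2 : zeI 0 (((Equiv.Perm.sign σ : ℤ) : ℚ[X][X])) := by
        rw [← Polynomial.C_eq_intCast]
        exact zeI_C _ _ (by rw [natDegree_intCast])
      refine zeI_mono (zeI_mul h2 h1) ?_
      rw [card_univ, Fintype.card_fin, zero_add, mul_comm]
    exact h0
  · intro a b η hη hz
    have h1 : ev a b (E.det) = (E.map (zeE a b)).det := by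
      rw [← zeE_apply, RingHom.map_det]
      rfl
    rw [h1]
    rw [← Matrix.exists_mulVec_eq_zero_iff]
    refine ⟨fun j => η ^ lam j, ?_, ?_⟩
    · intro h0
      have := congrFun h0 ⟨0, hn⟩
      simp only [Pi.zero_apply] at this
      exact (pow_ne_zero _ hη) this
    · funext s
      rw [Pi.zero_apply, ← hz s]
      simp only [Matrix.mulVec, dotProduct, Matrix.map_apply, E, Matrix.of_apply]
      apply Finset.sum_congr rfl
      intro j _
      have h2 : zeE a b ((P j).comp (X + C (C (((s : ℕ) : ℚ) * ℓ)))) =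
          ev (a + (s : ℕ) * ℓ) b (P j) := by
        rw [zeE_apply, ev, ev, eval_comp, eval_add, eval_X, eval_C, ← C_add]
      have h3 : zeE a b (C (C ((y ^ (s : ℕ)) ^ lam j))) = (y ^ (s : ℕ)) ^ lam j := by
        rw [zeE_apply, ev, eval_C, eval_C]
      rw [(zeE a b).map_mul, h2, h3, mul_pow]
      ring

/-- binomial functions are linearly independent -/
lemma ze_choose_indep {K : ℕ} (c : Fin K → ℚ)
    (h1 : ∀ z : ℕ, ∑ k : Fin K, c k * (Nat.choose z k : ℚ) = 0) : ∀ k, c k = 0 := by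
  have h3 : ∀ n : ℕ, ∀ hn : n < K, c ⟨n, hn⟩ = 0 := by
    intro n
    induction n using Nat.strong_induction_on with
    | _ n ih =>
      intro hn
      have h4 := h1 n
      rw [Finset.sum_eq_single (⟨n, hn⟩ : Fin K)] at h4
      · simpa using h4
      · intro k _ hk
        rcases lt_trichotomy (k : ℕ) n with h5 | h5 | h5
        · have := ih k h5 k.2
          simp only [Fin.eta] at this
          rw [this, zero_mul]
        · exact absurd (Fin.ext h5) hk
        · rw [Nat.choose_eq_zero_of_lt h5]; simp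
      · intro h5
        exact absurd (Finset.mem_univ _) h5
  intro k
  exact h3 k k.2

/-- the polynomial attached to a level -/
noncomputable def zeP {K : ℕ} (c : Fin K → Fin K → ℚ) : ℚ[X][X] :=
  ∑ k₁ : Fin K, ∑ k₂ : Fin K, C (C (c k₁ k₂) * bp k₂) * (bp k₁).map C

lemma zeP_bideg {K : ℕ} (c : Fin K → Fin K → ℚ) : BiDeg K (zeP c) := by
  refine ⟨?_, ?_⟩
  · unfold zeP
    apply natDegree_sum_le_of_forall_le
    intro k₁ _
    apply natDegree_sum_le_of_forall_le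
    intro k₂ _
    refine (natDegree_C_mul_le _ _).trans ((natDegree_map_le).trans ((bp_natDegree _).trans ?_))
    exact k₁.2.le
  · have h0 : zeI K (zeP c) := by
      unfold zeP
      apply zeI_sum
      intro k₁ _
      apply zeI_sum
      intro k₂ _
      have h1 : (C (c k₁ k₂) * bp k₂).natDegree ≤ K :=
        (natDegree_C_mul_le _ _).trans ((bp_natDegree _).trans k₂.2.le)
      exact zeI_mul (zeI_C _ K h1) (zeI_map _)
    exact h0

lemma zeP_ev {K : ℕ} (c : Fin K → Fin K → ℚ) (z₁ z₂ : ℕ) :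
    ev z₁ z₂ (zeP c) =
      ∑ k₁ : Fin K, ∑ k₂ : Fin K, c k₁ k₂ * ((Nat.choose z₁ k₁ : ℚ) * (Nat.choose z₂ k₂ : ℚ)) := by
  rw [← zeE_apply]
  unfold zeP
  simp only [map_sum, map_mul]
  apply Finset.sum_congr rfl
  intro k₁ _
  apply Finset.sum_congr rfl
  intro k₂ _
  have h1 : zeE z₁ z₂ (C (C (c k₁ k₂))) = c k₁ k₂ := by
    rw [zeE_apply, ev, eval_C, eval_C]
  have h2 : zeE z₁ z₂ (C (bp k₂)) = (Nat.choose z₂ k₂ : ℚ) := by
    rw [zeE_apply, ev, eval_C, bp_eval]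
  have h3 : zeE z₁ z₂ ((bp k₁).map C) = (Nat.choose z₁ k₁ : ℚ) := by
    rw [zeE_apply, ev, eval_map, eval₂_at_apply, eval_C, bp_eval]
  rw [h1, h2, h3]
  ring

lemma zeP_ne {K : ℕ} (c : Fin K → Fin K → ℚ) (h : ∃ k₁ k₂, c k₁ k₂ ≠ 0) : zeP c ≠ 0 := by
  intro h0
  obtain ⟨k₁, k₂, hk⟩ := h
  apply hk
  have h1 : ∀ z₁ z₂ : ℕ, ∑ k₁ : Fin K, (∑ k₂ : Fin K, c k₁ k₂ * (Nat.choose z₂ k₂ : ℚ)) *
      (Nat.choose z₁ k₁ : ℚ) = 0 := by
    intro z₁ z₂
    have h2 := zeP_ev c z₁ z₂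
    rw [h0, ← zeE_apply, map_zero] at h2
    rw [h2]
    apply Finset.sum_congr rfl
    intro k₁ _
    rw [Finset.sum_mul]
    apply Finset.sum_congr rfl
    intro k₂ _
    ring
  have h3 : ∀ z₂ : ℕ, ∑ k₂ : Fin K, c k₁ k₂ * (Nat.choose z₂ k₂ : ℚ) = 0 := fun z₂ =>
    ze_choose_indep (fun k₁ => ∑ k₂ : Fin K, c k₁ k₂ * (Nat.choose z₂ k₂ : ℚ))
      (fun z₁ => h1 z₁ z₂) k₁
  exact ze_choose_indep (fun k₂ => c k₁ k₂) h3 k₂

/-- **ZE** -/
theorem ze : Stmt_Zpl → Stmt_Val → Stmt_Ze := by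
  classical
  intro hZ hV p q K L R₁ R α hp hq hpq hα hK hL h2p h2q hRR hbig hKL c h
  by_contra hc
  let J : Finset (Fin L) := univ.filter (fun l => ∃ k₁ k₂, c (k₁, k₂, l) ≠ 0)
  have hJ : 0 < J.card := by
    rw [Finset.card_pos]
    obtain ⟨⟨k₁, k₂, l⟩, hkl⟩ := Function.ne_iff.mp hc
    exact ⟨l, by simp only [J, mem_filter, mem_univ, true_and]; exact ⟨k₁, k₂, hkl⟩⟩
  let e : Fin J.card ≃ J := J.equivFin.symm
  have hJL : J.card ≤ L := by
    have := Finset.card_le_univ J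
    simpa using this
  let P : Fin J.card → ℚ[X][X] := fun j => zeP (fun k₁ k₂ => c (k₁, k₂, (e j : Fin L)))
  have hfilt : ∀ l : Fin L, l ∉ J → ∀ k₁ k₂, c (k₁, k₂, l) = 0 := by
    intro l hl k₁ k₂
    by_contra h1
    exact hl (by simp only [J, mem_filter, mem_univ, true_and]; exact ⟨k₁, k₂, h1⟩)
  obtain ⟨Δ, hΔ, hB, hvan⟩ := ze_core hJ (fun j => ((e j : Fin L) : ℕ)) (by
      intro i j hij
      apply e.injective
      apply Subtype.ext
      exact Fin.ext hij) P (by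
      intro j
      apply zeP_ne
      have h2 := (e j).2
      simp only [J, mem_filter, mem_univ, true_and] at h2
      exact h2) K (fun j => zeP_bideg _) (p : ℚ) (by exact_mod_cast hp.one_lt) q
  have hBD : BiDeg (K * L) Δ := by
    have h1 : K * J.card ≤ K * L := Nat.mul_le_mul_left _ hJL
    exact ⟨hB.1.trans h1, fun i => (hB.2 i).trans h1⟩
  -- vanishing at the points
  have hpt : ∀ r₁ < 2 * R₁, ∀ r₂ < 2 * R, ∀ r₃ < 2 * R,
      ev ((r₁ + q * r₂ : ℕ) : ℚ) ((p * (r₃ + 1) - r₁ : ℕ) : ℚ) Δ = 0 := by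
    intro r₁ hr₁ r₂ hr₂ r₃ hr₃
    apply hvan _ _ (α ^ r₁ * (p : ℚ) ^ r₂ * (q : ℚ) ^ (r₃ + 1))
    · have h1 : (p : ℚ) ≠ 0 := by exact_mod_cast hp.ne_zero
      have h2 : (q : ℚ) ≠ 0 := by exact_mod_cast hq.ne_zero
      exact mul_ne_zero (mul_ne_zero (pow_ne_zero _ hα.ne') (pow_ne_zero _ h1)) (pow_ne_zero _ h2)
    · intro s
      have hs := s.2
      have h1 := h r₁ hr₁ (r₂ + s) (by omega) r₃ hr₃
      rw [← h1]
      have h3 : ∀ j : Fin J.card, ev (((r₁ + q * r₂ : ℕ) : ℚ) + (s : ℕ) * q)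
          ((p * (r₃ + 1) - r₁ : ℕ) : ℚ) (P j) =
          ∑ k₁ : Fin K, ∑ k₂ : Fin K, c (k₁, k₂, (e j : Fin L)) *
            ((Nat.choose (r₁ + q * (r₂ + s)) k₁ : ℚ) *
              (Nat.choose (p * (r₃ + 1) - r₁) k₂ : ℚ)) := by
        intro j
        rw [← zeP_ev]
        have h4 : ((r₁ + q * r₂ : ℕ) : ℚ) + (s : ℕ) * q = ((r₁ + q * (r₂ + s) : ℕ) : ℚ) := by
          push_cast
          ring
        rw [h4]
      have h5 : ∑ i : Fin K × Fin K × Fin L, c i * ((Nat.choose (r₁ + q * (r₂ + s)) i.1 : ℚ) *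
          (Nat.choose (p * (r₃ + 1) - r₁) i.2.1 : ℚ) *
          (α ^ r₁ * (p : ℚ) ^ (r₂ + (s : ℕ)) * (q : ℚ) ^ (r₃ + 1)) ^ (i.2.2 : ℕ)) =
          ∑ l : Fin L, ∑ k₁ : Fin K, ∑ k₂ : Fin K, c (k₁, k₂, l) *
            ((Nat.choose (r₁ + q * (r₂ + s)) k₁ : ℚ) *
            (Nat.choose (p * (r₃ + 1) - r₁) k₂ : ℚ) *
            (α ^ r₁ * (p : ℚ) ^ (r₂ + (s : ℕ)) * (q : ℚ) ^ (r₃ + 1)) ^ (l : ℕ)) := by
        rw [Fintype.sum_prod_type]
        symm
        rw [Finset.sum_comm]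
        apply Finset.sum_congr rfl
        intro k₁ _
        rw [Finset.sum_comm]
        symm
        rw [Fintype.sum_prod_type]
      rw [h5]
      have h6 : ∑ l : Fin L, ∑ k₁ : Fin K, ∑ k₂ : Fin K, c (k₁, k₂, l) *
            ((Nat.choose (r₁ + q * (r₂ + s)) k₁ : ℚ) *
            (Nat.choose (p * (r₃ + 1) - r₁) k₂ : ℚ) *
            (α ^ r₁ * (p : ℚ) ^ (r₂ + (s : ℕ)) * (q : ℚ) ^ (r₃ + 1)) ^ (l : ℕ)) =
          ∑ l ∈ J, ∑ k₁ : Fin K, ∑ k₂ : Fin K, c (k₁, k₂, l) *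
            ((Nat.choose (r₁ + q * (r₂ + s)) k₁ : ℚ) *
            (Nat.choose (p * (r₃ + 1) - r₁) k₂ : ℚ) *
            (α ^ r₁ * (p : ℚ) ^ (r₂ + (s : ℕ)) * (q : ℚ) ^ (r₃ + 1)) ^ (l : ℕ)) := by
        symm
        apply Finset.sum_subset (Finset.subset_univ _)
        intro l _ hl
        apply Finset.sum_eq_zero
        intro k₁ _
        apply Finset.sum_eq_zero
        intro k₂ _
        rw [hfilt l hl k₁ k₂, zero_mul]
      rw [h6, ← Finset.sum_coe_sort J, ← Equiv.sum_comp e]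
      apply Finset.sum_congr rfl
      intro j _
      rw [h3 j, Finset.sum_mul]
      apply Finset.sum_congr rfl
      intro k₁ _
      rw [Finset.sum_mul]
      apply Finset.sum_congr rfl
      intro k₂ _
      have h7 : α ^ r₁ * (p : ℚ) ^ (r₂ + (s : ℕ)) * (q : ℚ) ^ (r₃ + 1) =
          α ^ r₁ * (p : ℚ) ^ r₂ * (q : ℚ) ^ (r₃ + 1) * (p : ℚ) ^ (s : ℕ) := by
        rw [pow_add]
        ring
      rw [h7]
      ring
  obtain ⟨hcard, hval⟩ := hV p q R₁ R hp hq hpq (by omega) (by omega) hRR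
  have hfin := hZ Δ (K * L) (Xi p q R₁ R) hΔ hBD (by
    intro s hs t ht
    simp only [Xi, mem_image, mem_product, mem_range, Prod.exists] at hs ht
    obtain ⟨a₁, a₂, a₃, ⟨ha₁, ha₂, ha₃⟩, rfl⟩ := hs
    obtain ⟨b₁, b₂, b₃, ⟨hb₁, hb₂, hb₃⟩, rfl⟩ := ht
    have h1 := hpt (a₁ + b₁) (by omega) (a₂ + b₂) (by omega) (a₃ + b₃ + 1) (by omega)
    have hle : a₁ + b₁ ≤ p * (a₃ + b₃ + 1 + 1) := by
      have : p * 1 ≤ p * (a₃ + b₃ + 1 + 1) := Nat.mul_le_mul_left _ (by omega)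
      omega
    rw [Nat.cast_sub hle] at h1
    rw [← h1]
    push_cast
    have e1 : ((a₁ : ℚ) + q * a₂ + (b₁ + q * b₂)) = ((a₁ : ℚ) + b₁ + q * (a₂ + b₂)) := by ring
    have e2 : ((p : ℚ) * (a₃ + 1) - a₁ + (p * (b₃ + 1) - b₁)) =
        ((p : ℚ) * (a₃ + b₃ + 1 + 1) - (a₁ + b₁)) := by ring
    rw [e1, e2])
    (fun a b hab => lt_of_lt_of_le hKL (hval a b hab))
  rw [hcard] at hfin
  omega

end Pool.Agent.Work.MP_2738db_nt_Y.helper17
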