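import Pool.Agent.Work.MP_2738db_nt_Y.Interface

/-! Block FEW: few pairwise non-associated translates of an irreducible polynomial divide `P`. -/

set_option autoImplicit false

namespace Pool.Agent.Work.MP_2738db_nt_Y.helper17

open Finset Polynomial

/-- the translation as a ring homomorphism -/
noncomputable def trH (a b : ℚ) : ℚ[X][X] →+* ℚ[X][X] :=
  (compRingHom (X + C (C a))).comp (mapRingHom (compRingHom (X + C b)))

theorem trH_apply (a b : ℚ) (P : ℚ[X][X]) : trH a b P = tr a b P := rfl

theorem trH_C (a b : ℚ) (f : ℚ[X]) : trH a b (C f) = C (f.comp (X + C b)) := by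
  simp [trH, coe_compRingHom]

theorem trH_X (a b : ℚ) : trH a b X = X + C (C a) := by
  simp [trH, coe_compRingHom]

theorem trH_comp (a b a' b' : ℚ) : (trH a b).comp (trH a' b') = trH (a + a') (b + b') := by
  apply Polynomial.ringHom_ext
  · intro f
    rw [RingHom.comp_apply, trH_C, trH_C, trH_C, comp_assoc]
    congr 2
    simp [add_assoc]
  · rw [RingHom.comp_apply, trH_X, trH_X, map_add, trH_X, trH_C]
    simp [add_assoc]

theorem trH_zero : trH 0 0 = RingHom.id _ := by
  apply Polynomial.ringHom_ext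
  · intro f
    rw [trH_C]; simp
  · rw [trH_X]; simp

/-- the translation as an automorphism -/
noncomputable def trE (a b : ℚ) : ℚ[X][X] ≃+* ℚ[X][X] :=
  RingEquiv.ofRingHom (trH a b) (trH (-a) (-b))
    (by rw [trH_comp]; simp [trH_zero]) (by rw [trH_comp]; simp [trH_zero])

theorem trE_apply (a b : ℚ) (P : ℚ[X][X]) : trE a b P = tr a b P := rfl

theorem tr_irreducible (a b : ℚ) {Q : ℚ[X][X]} (h : Irreducible Q) : Irreducible (tr a b Q) := by
  rw [← trE_apply]
  exact (MulEquiv.irreducible_iff (trE a b)).2 h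

theorem tr_natDegree (a b : ℚ) (Q : ℚ[X][X]) : (tr a b Q).natDegree = Q.natDegree := by
  unfold tr
  rw [natDegree_comp, natDegree_X_add_C, mul_one]
  refine natDegree_map_eq_of_injective ?_ Q
  intro f g hfg
  have h := congrArg (fun r : ℚ[X] => r.comp (X + C (-b))) hfg
  simpa [coe_compRingHom, comp_assoc, add_assoc] using h

theorem few : Stmt_Few := by
  classical
  intro P Q D T hP hD hQ hdvd hna
  have hirr : ∀ s ∈ T, Irreducible (tr (-s.1) (-s.2) Q) := fun s _ => tr_irreducible _ _ hQ
  have hprod : ∏ s ∈ T, tr (-s.1) (-s.2) Q ∣ P := by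
    refine Finset.prod_dvd_of_isRelPrime ?_ hdvd
    intro s hs t ht hst
    change IsRelPrime (tr (-s.1) (-s.2) Q) (tr (-t.1) (-t.2) Q)
    rw [(hirr s hs).isRelPrime_iff_not_dvd]
    intro hd
    exact hna s hs t ht hst ((hirr s hs).associated_of_dvd (hirr t ht) hd)
  rcases Nat.eq_zero_or_pos Q.natDegree with h0 | h0
  · -- the outer degree of `Q` is zero
    obtain ⟨f, hf⟩ : ∃ f : ℚ[X], Q = C f := ⟨Q.coeff 0, eq_C_of_natDegree_eq_zero h0⟩
    have hfd : 1 ≤ f.natDegree := by
      by_contra hcon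
      have hfd0 : f.natDegree = 0 := by omega
      obtain ⟨c, hc⟩ : ∃ c : ℚ, f = C c := ⟨f.coeff 0, eq_C_of_natDegree_eq_zero hfd0⟩
      have hc0 : c ≠ 0 := by
        rintro rfl
        rw [hf, hc] at hQ
        simp at hQ
      apply hQ.not_isUnit
      rw [hf, hc]
      exact ((isUnit_iff_ne_zero.2 hc0).map C).map C
    have hpe : ∏ s ∈ T, tr (-s.1) (-s.2) Q = C (∏ s ∈ T, f.comp (X + C (-(s.2 : ℚ)))) := by
      rw [map_prod]
      refine Finset.prod_congr rfl (fun s _ => ?_)
      rw [← trH_apply, hf, trH_C]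
    rw [hpe, C_dvd_iff_dvd_coeff] at hprod
    obtain ⟨i, hi⟩ : ∃ i, P.coeff i ≠ 0 := by
      by_contra hcon
      push Not at hcon
      exact hP (Polynomial.ext (fun i => by rw [hcon i, coeff_zero]))
    have h1 := natDegree_le_of_dvd (hprod i) hi
    have hne : ∀ s ∈ T, f.comp (X + C (-(s.2 : ℚ))) ≠ 0 := by
      intro s _ h
      have h2 : (f.comp (X + C (-(s.2 : ℚ)))).natDegree = f.natDegree := by
        rw [natDegree_comp, natDegree_X_add_C, mul_one]
      rw [h, natDegree_zero] at h2
      omega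
    rw [natDegree_prod _ _ hne] at h1
    have h3 : ∑ s ∈ T, (f.comp (X + C (-(s.2 : ℚ)))).natDegree = T.card * f.natDegree := by
      rw [Finset.sum_congr rfl (fun s _ => by rw [natDegree_comp, natDegree_X_add_C, mul_one]),
        Finset.sum_const, smul_eq_mul]
    rw [h3] at h1
    have h4 := hD.2 i
    calc T.card = T.card * 1 := (mul_one _).symm
      _ ≤ T.card * f.natDegree := Nat.mul_le_mul_left _ hfd
      _ ≤ D := h1.trans h4
  · have h1 := natDegree_le_of_dvd hprod hP
    rw [natDegree_prod _ _ (fun s hs => (hirr s hs).ne_zero)] at h1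
    have h3 : ∑ s ∈ T, (tr (-s.1) (-s.2) Q).natDegree = T.card * Q.natDegree := by
      rw [Finset.sum_congr rfl (fun s _ => tr_natDegree _ _ Q), Finset.sum_const, smul_eq_mul]
    rw [h3] at h1
    calc T.card = T.card * 1 := (mul_one _).symm
      _ ≤ T.card * Q.natDegree := Nat.mul_le_mul_left _ h0
      _ ≤ D := h1.trans hD.1

end Pool.Agent.Work.MP_2738db_nt_Y.helper17
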